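import Pool.Agent.H879.Nef.Ample
import Pool.Agent.H879.RV.Adj

/-! Vanishing for the adjoint class over an ample core, and emptiness. -/

set_option autoImplicit false

namespace Pool.Agent.H879.Nef

open MvPolynomial Pool.Agent.W609 Pool.Agent.W609.CR Pool.Agent.TH167.SH Pool.Agent.TH167.TT
open Pool.Agent.H879.RV
open Pool.Agent.Y205.MD
open Pool.Agent.TH387.SH (TF coe_TF card_TF)
open Pool.Agent.H879.Pos (finrank_ind large small nagata_sub le_deg)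

/-- the number of the conditions of a nonzero form -/
theorem one_le_crk {n : ℕ} {P : Fin n → Fin 2 → ℂ}
    (hP : AlgebraicIndependent ℚ (fun ij : Fin n × Fin 2 => P ij.1 ij.2))
    {F : MvPolynomial (Fin 3) ℂ} {e : ℕ} {v : Fin n → ℕ} (hF0 : F ≠ 0) (hF : F.IsHomogeneous e)
    (hv : ∀ i, Van (aff (P i)) (v i) F) : 1 ≤ crk (TF e) v := by
  refine Pool.Agent.H879.Pos.crk_of_mem hP (G := F) hF0 ?_
  rw [← vs_eq_forms, mem_VS]
  exact ⟨hF, hv⟩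

theorem up_large_le {n : ℕ} (w : Fin n → ℕ) (i : Fin n) : up (large w 1) i ≤ w i + 1 := by
  unfold up Pool.Agent.H879.Pos.large
  split_ifs <;> omega

/-- the core of the adjoint class -/
theorem core_adj {r d : ℕ} {P : Fin (r + 4) → Fin 2 → ℂ}
    (hP : AlgebraicIndependent ℚ (fun ij : Fin (r + 4) × Fin 2 => P ij.1 ij.2))
    {w L : Fin (r + 4) → ℕ} {ρ : ℝ} {T : Finset (Fin (r + 4))} {κ : ℕ}
    (hκ : 9 ≤ κ) (hTκ : T.card ≤ κ) (hL : ∀ i, L i ≤ w i + 1)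
    (hpos : ∀ (F : MvPolynomial (Fin 3) ℂ) (e : ℕ) (v : Fin (r + 4) → ℕ), F ≠ 0 →
      F.IsHomogeneous e → (∀ i, Van (aff (P i)) (v i) F) →
      ∑ i ∈ T, (w i : ℝ) * (v i : ℝ) ≤ (d - ρ) * e)
    (F : MvPolynomial (Fin 3) ℂ) (e : ℕ) (v : Fin (r + 4) → ℕ) (hF0 : F ≠ 0)
    (hF : F.IsHomogeneous e) (hv : ∀ i, Van (aff (P i)) (v i) F) :
    ∑ i ∈ T, (L i : ℝ) * (v i : ℝ) ≤ ((d : ℝ) + 3 - (ρ - √(κ : ℝ))) * e := by
  have h1 := hpos F e v hF0 hF hv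
  have h2 := nagata_sub (n := r + 4) (k := κ) (e := e) hκ (c := v) hTκ (one_le_crk hP hF0 hF hv)
  push_cast at h2
  have h3 : ∑ i ∈ T, (L i : ℝ) * (v i : ℝ) ≤ ∑ i ∈ T, ((w i : ℝ) * (v i : ℝ) + v i) := by
    refine Finset.sum_le_sum fun i _ => ?_
    have h4 : (L i : ℝ) ≤ (w i : ℝ) + 1 := by exact_mod_cast hL i
    have := mul_le_mul_of_nonneg_right h4 (Nat.cast_nonneg (α := ℝ) (v i))
    linarith
  rw [Finset.sum_add_distrib] at h3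
  have h4 : (0 : ℝ) ≤ e := Nat.cast_nonneg _
  have e1 : ((d : ℝ) + 3 - (ρ - √(κ : ℝ))) * e = (d - ρ) * e + √(κ : ℝ) * e + 3 * e := by ring
  rw [e1]
  linarith

/-- **the adjoint class over an ample core** -/
theorem crk_amp {r d : ℕ} {P : Fin (r + 4) → Fin 2 → ℂ}
    (hP : AlgebraicIndependent ℚ (fun ij : Fin (r + 4) × Fin 2 => P ij.1 ij.2))
    {w : Fin (r + 4) → ℕ} {ρ m δ : ℝ} {T : Finset (Fin (r + 4))} {κ : ℕ}
    (hκ : 9 ≤ κ) (hTκ : T.card ≤ κ)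
    (hpos : ∀ (F : MvPolynomial (Fin 3) ℂ) (e : ℕ) (v : Fin (r + 4) → ℕ), F ≠ 0 →
      F.IsHomogeneous e → (∀ i, Van (aff (P i)) (v i) F) →
      ∑ i ∈ T, (w i : ℝ) * (v i : ℝ) ≤ (d - ρ) * e)
    (hm0 : 0 ≤ m) (hm : ∀ i, i ∉ T → (w i : ℝ) ≤ m) (hδ0 : 0 < δ) (hδ1 : δ ≤ 1)
    (hsmall : 10 ^ 24 * √(κ : ℝ) * (m + 1) ≤ (ρ - √(κ : ℝ)) * δ ^ 10)
    (hq : δ * (m + 1) ^ 2 ≤ ((d : ℝ) + 3) ^ 2 - ∑ i, (up (large w 1) i : ℝ) ^ 2)
    (heff : ∑ i, up (large w 1) i ^ 2 + ∑ i, up (large w 1) i < (d + 4) * (d + 5)) :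
    crk (TF d) w = (d + 2).choose 2 - ∑ i, (w i + 1).choose 2 := by
  classical
  have hs3 : 3 ≤ √(κ : ℝ) := by
    refine Real.le_sqrt_of_sq_le ?_
    have : (9 : ℝ) ≤ κ := by exact_mod_cast hκ
    linarith
  have hρ : 0 < ρ - √(κ : ℝ) := by
    by_contra hcon
    push Not at hcon
    have h1 : (ρ - √(κ : ℝ)) * δ ^ 10 ≤ 0 :=
      mul_nonpos_of_nonpos_of_nonneg hcon (by positivity)
    have h2 : (0 : ℝ) < 10 ^ 24 * √(κ : ℝ) * (m + 1) := by positivity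
    linarith
  refine crk_of_big ?_
  have h1 := rv_nef hP (d := d) (w := large w 1) (fun G e c hG hGe hc => ?_) ?_ heff
  · omega
  · have h2 := nef_core hP (x := fun i => (up (large w 1) i : ℝ)) (c := (d : ℝ) + 3)
      (ρ := ρ - √(κ : ℝ)) (m := m + 1) (δ := δ) (T := T) (κ := κ)
      (fun i => Nat.cast_nonneg _) hκ hTκ hρ
      (core_adj hP hκ hTκ (up_large_le w) hpos) (by linarith) (fun i hi => ?_) hδ0 hδ1 hq hsmall
      hG hGe hc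
    · exact_mod_cast h2
    · have h3 : (up (large w 1) i : ℝ) ≤ (w i : ℝ) + 1 := by exact_mod_cast up_large_le w i
      have := hm i hi
      linarith
  · have h2 : 0 < δ * (m + 1) ^ 2 := by positivity
    have h3 : ((∑ i, up (large w 1) i ^ 2 : ℕ) : ℝ) < (((d + 3) ^ 2 : ℕ) : ℝ) := by
      push_cast
      linarith
    exact_mod_cast h3

end Pool.Agent.H879.Nef
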