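import Mathlib

/-! Numerical lemmas. -/

set_option autoImplicit false

namespace Pool.Agent.H879.Nef

/-- the multiplicity and the coefficient -/
theorem low {b y k s : ℝ} (h : (b - y) ^ 2 + s < k) (hs : 0 ≤ s) (h8 : 8 * k ≤ b ^ 2)
    (hb : 4 ≤ b) : 16 * b ≤ 25 * y := by
  by_contra hcon
  push Not at hcon
  have h1 : 0 ≤ 9 / 25 * b := by linarith
  have h2 : 9 / 25 * b ≤ b - y := by linarith
  have h3 := pow_le_pow_left₀ h1 h2 2
  have e1 : (9 / 25 * b) ^ 2 = 81 / 625 * b ^ 2 := by ring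
  rw [e1] at h3
  have h4 : 0 < b ^ 2 := by positivity
  linarith

/-- the core has a large volume -/
theorem vol {V q c m : ℝ} (hc : 0 < c) (hm : 0 < m) (hq : q ≤ V) (hV : V ≤ c ^ 2) (hq0 : 0 ≤ q)
    (h : 400000000 * c * m ^ 3 ≤ V * q) : 500000 * m ^ 2 ≤ V := by
  by_contra hcon
  push Not at hcon
  have hV0 : 0 ≤ V := hq0.trans hq
  have h1 : 400000000 * c * m ^ 3 ≤ V ^ 2 := by
    have := mul_le_mul_of_nonneg_left hq hV0
    rw [sq]
    linarith
  have h2 : (400000000 * c * m ^ 3) ^ 2 ≤ (V ^ 2) ^ 2 := pow_le_pow_left₀ (by positivity) h1 2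
  have e1 : (400000000 * c * m ^ 3) ^ 2 = 160000000000000000 * m ^ 6 * c ^ 2 := by ring
  have e2 : (V ^ 2) ^ 2 = V ^ 3 * V := by ring
  rw [e1, e2] at h2
  have h3 : V ^ 3 ≤ (500000 * m ^ 2) ^ 3 := pow_le_pow_left₀ hV0 hcon.le 3
  have e3 : (500000 * m ^ 2) ^ 3 = 125000000000000000 * m ^ 6 := by ring
  rw [e3] at h3
  have hVp : 0 < V := by
    by_contra h0
    have h0' : V = 0 := le_antisymm (not_lt.1 h0) hV0
    rw [h0'] at h1
    have : 0 < 400000000 * c * m ^ 3 := by positivity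
    norm_num at h1
    linarith
  have h4 : 160000000000000000 * m ^ 6 * V ≤ V ^ 3 * V :=
    le_trans (mul_le_mul_of_nonneg_left hV (by positivity)) h2
  have h5 : V ^ 3 * V ≤ 125000000000000000 * m ^ 6 * V := mul_le_mul_of_nonneg_right h3 hV0
  have h6 : 0 < m ^ 6 * V := by positivity
  linarith

/-- The numbers in case (b). Here `g = e ^ 2 - ∑_T u ^ 2`, `S = t ^ 2 V`, `y = t m`,
`a = t ^ 2 q`. -/
theorem caseB {b e k g S y a : ℝ} (hb : 4 ≤ b) (hk0 : 0 < k) (h8 : 8 * k ≤ b ^ 2) (hkb : k ≤ b)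
    (hy : 16 * b ≤ 25 * y) (hak : a < k) (he : 0 < e) (hS : S ≤ e ^ 2)
    (hSy : 500000 * y ^ 2 ≤ S) (hg0 : k ≤ S → (g - S) ^ 2 ≤ 4 * S * k)
    (hgu : g < 60000000 * ((b + 1) ^ 2 * (e + b + 2)))
    (h : 400000000 * e * y ^ 3 ≤ S * a) : False := by
  have hb0 : 0 < b := by linarith
  have hy0 : 0 < y := by linarith
  have hy2 : (16 / 25 * b) ^ 2 ≤ y ^ 2 := pow_le_pow_left₀ (by positivity) (by linarith) 2
  have hy3 : (16 / 25 * b) ^ 3 ≤ y ^ 3 := pow_le_pow_left₀ (by positivity) (by linarith) 3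
  have hSb : 204800 * b ^ 2 ≤ S := by
    have e1 : (16 / 25 * b) ^ 2 = 256 / 625 * b ^ 2 := by ring
    rw [e1] at hy2
    linarith
  have hb2 : 0 < b ^ 2 := by positivity
  have hS0 : 0 < S := by linarith
  have hSk : 1638400 * k ≤ S := by linarith
  have hg := hg0 (by linarith)
  -- `g ≥ 0.99 S`
  have h99 : 99 / 100 * S ≤ g := by
    by_contra hcon
    push Not at hcon
    have h1 : 0 ≤ 1 / 100 * S := by positivity
    have h2 : 1 / 100 * S ≤ S - g := by linarith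
    have h3 := pow_le_pow_left₀ h1 h2 2
    have e1 : (1 / 100 * S) ^ 2 = 1 / 10000 * S * S := by ring
    have e2 : (S - g) ^ 2 = (g - S) ^ 2 := by ring
    rw [e1, e2] at h3
    have h4 : S * (1638400 * k) ≤ S * S := mul_le_mul_of_nonneg_left hSk hS0.le
    have h5 : 0 < S * k := by positivity
    linarith
  -- `e ≥ 452 b`
  have heb : 450 * b ≤ e := by
    by_contra hcon
    push Not at hcon
    have h1 : e ^ 2 ≤ (450 * b) ^ 2 := pow_le_pow_left₀ he.le hcon.le 2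
    have e1 : (450 * b) ^ 2 = 202500 * b ^ 2 := by ring
    rw [e1] at h1
    linarith
  have hb1 : (b + 1) ^ 2 ≤ 25 / 16 * b ^ 2 := by
    have h1 : (b + 1) ^ 2 ≤ (5 / 4 * b) ^ 2 := pow_le_pow_left₀ (by linarith) (by linarith) 2
    have e1 : (5 / 4 * b) ^ 2 = 25 / 16 * b ^ 2 := by ring
    linarith
  have he2 : e + b + 2 ≤ 251 / 250 * e := by linarith
  have h1 : (b + 1) ^ 2 * (e + b + 2) ≤ 25 / 16 * b ^ 2 * (251 / 250 * e) :=
    mul_le_mul hb1 he2 (by linarith) (by positivity)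
  have h2 : g < 94125000 * (b ^ 2 * e) := by
    have e1 : 25 / 16 * b ^ 2 * (251 / 250 * e) = 251 / 160 * (b ^ 2 * e) := by ring
    rw [e1] at h1
    linarith
  have h3 : 99 * S < 9412500000 * (b ^ 2 * e) := by linarith
  -- the contradiction
  have h4 : S * a < S * b := mul_lt_mul_of_pos_left (by linarith) hS0
  have h5 : 99 * (S * b) < 9412500000 * (b ^ 3 * e) := by
    have := mul_lt_mul_of_pos_right h3 hb0
    have e1 : 9412500000 * (b ^ 2 * e) * b = 9412500000 * (b ^ 3 * e) := by ring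
    have e2 : 99 * S * b = 99 * (S * b) := by ring
    linarith
  have h6 : 400000000 * e * (16 / 25 * b) ^ 3 ≤ 400000000 * e * y ^ 3 :=
    mul_le_mul_of_nonneg_left hy3 (by positivity)
  have e3 : 400000000 * e * (16 / 25 * b) ^ 3 = 104857600 * (b ^ 3 * e) := by ring
  rw [e3] at h6
  have h7 : 0 < b ^ 3 * e := by positivity
  linarith

/-- The numbers in case (a). -/
theorem caseA {b e k y a : ℝ} (hb : 4 ≤ b) (hkb : k ≤ b)
    (hy : 16 * b ≤ 25 * y) (ha0 : 0 ≤ a) (hak : a < k) (he : 0 < e)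
    (heu : e < 10000000000000000000000000000000 * (b + 1) ^ 14)
    (h : 4 * 10 ^ 37 * y ^ 27 ≤ e * a ^ 13) : False := by
  have hb0 : 0 < b := by linarith
  have h1 : (16 / 25 * b) ^ 27 ≤ y ^ 27 := pow_le_pow_left₀ (by positivity) (by linarith) 27
  have h2 : a ^ 13 ≤ b ^ 13 := pow_le_pow_left₀ ha0 (by linarith) 13
  have h3 : e * a ^ 13 ≤ e * b ^ 13 := mul_le_mul_of_nonneg_left h2 he.le
  have h4 : (b + 1) ^ 14 ≤ (5 / 4 * b) ^ 14 := pow_le_pow_left₀ (by linarith) (by linarith) 14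
  have h5 : e < 10000000000000000000000000000000 * (5 / 4) ^ 14 * b ^ 14 := by
    rw [mul_pow] at h4
    linarith
  have h6 : e * b ^ 13 < 10000000000000000000000000000000 * (5 / 4) ^ 14 * b ^ 14 * b ^ 13 :=
    mul_lt_mul_of_pos_right h5 (by positivity)
  have h7 : 4 * 10 ^ 37 * (16 / 25) ^ 27 * b ^ 27 ≤ e * b ^ 13 := by
    rw [mul_pow] at h1
    linarith
  have e1 : 10000000000000000000000000000000 * (5 / 4) ^ 14 * b ^ 14 * b ^ 13 =
      10000000000000000000000000000000 * (5 / 4) ^ 14 * b ^ 27 := by ring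
  rw [e1] at h6
  have h8 : (4 * 10 ^ 37 * (16 / 25) ^ 27 : ℝ) * b ^ 27 <
      10000000000000000000000000000000 * (5 / 4) ^ 14 * b ^ 27 := lt_of_le_of_lt h7 h6
  have h9 := lt_of_mul_lt_mul_right h8 (by positivity)
  norm_num at h9

end Pool.Agent.H879.Nef
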