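import Pool.Agent.H879.Neg.Tenth
import Pool.Agent.H879.Nef.Num
import Pool.Graph.R_pool_sql_team_seeded_c8625f6e.K4H28.TC.Core2
import Pool.Graph.R_pool_sql_team_seeded_c8625f6e.K4H28.TC.Forms

/-! Nef classes whose tenth coefficient is small. -/

set_option autoImplicit false

namespace Pool.Agent.H879.Nef

open MvPolynomial Pool.Agent.W609 Pool.Agent.W609.CR Pool.Agent.TH167 Pool.Agent.TH167.SH
open Pool.Agent.R355.NegOrb Pool.Agent.R355.CanDeg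
open Pool.Agent.K4H28.TC
open Pool.Agent.Q310.FP (GE)

/-- negative curves have no expected dimension -/
theorem not_ge {r : ℕ} {P : Fin (r + 4) → Fin 2 → ℂ}
    (hP : AlgebraicIndependent ℚ (fun ij : Fin (r + 4) × Fin 2 => P ij.1 ij.2)) {e : ℕ}
    {u : Fin (r + 4) → ℕ} (hI : Irr P e u) {k : ℤ} (hk : ip e u e u = -k) (hk0 : 0 < k) :
    ¬ GE e u := by
  intro hG
  obtain ⟨G, g1, g2, g3⟩ := hI.ex
  obtain ⟨κ, hκ⟩ : ∃ κ, kk e u = -κ := ⟨-kk e u, (neg_neg _).symm⟩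
  obtain ⟨hκ3, -⟩ := main hP hI hk hk0 hκ
  have h7 := SH.two_chi e u
  have hx : SH.chi e u ≤ 0 := by
    rw [hk, hκ] at h7
    omega
  exact X213.NegStd.not_exp (SH.curve_iff.2 ⟨g1, g2, g3⟩) hx (hG ℂ P hP)

theorem xu_nat {r : ℕ} {P : Fin (r + 4) → Fin 2 → ℂ}
    (hP : AlgebraicIndependent ℚ (fun ij : Fin (r + 4) × Fin 2 => P ij.1 ij.2)) {e : ℕ}
    {u : Fin (r + 4) → ℕ} (hI : Irr P e u) : ∀ j, 1 ≤ u j → ∑ i, u i ^ 2 ≤ e ^ 2 + u j := by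
  intro j hj
  obtain ⟨G, g1, g2, g3⟩ := hI.ex
  exact xu hP g1 g2 g3 (k := j) hj

/-- a geometric estimate -/
theorem tube {s : ℕ} {x : Fin s → ℝ} {c t k : ℝ} {e : ℕ} {u : Fin s → ℕ} (T : Finset (Fin s))
    (hk : k = ∑ i, (u i : ℝ) ^ 2 - (e : ℝ) ^ 2)
    (hq : 0 ≤ c ^ 2 - ∑ i, x i ^ 2)
    (h : ∑ i, ((u i : ℝ) - t * x i) ^ 2 + t ^ 2 * (c ^ 2 - ∑ i, x i ^ 2) < k)
    (hkS : k ≤ t ^ 2 * (c ^ 2 - ∑ i ∈ T, x i ^ 2)) :
    ((e : ℝ) ^ 2 - ∑ i ∈ T, (u i : ℝ) ^ 2 - t ^ 2 * (c ^ 2 - ∑ i ∈ T, x i ^ 2)) ^ 2 ≤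
      4 * (t ^ 2 * (c ^ 2 - ∑ i ∈ T, x i ^ 2)) * k := by
  classical
  obtain ⟨q, hqd⟩ : ∃ q, q = c ^ 2 - ∑ i, x i ^ 2 := ⟨_, rfl⟩
  obtain ⟨A, hA⟩ : ∃ A, A = ∑ i ∈ Tᶜ, x i ^ 2 := ⟨_, rfl⟩
  obtain ⟨U, hU⟩ : ∃ U, U = ∑ i ∈ Tᶜ, (u i : ℝ) ^ 2 := ⟨_, rfl⟩
  obtain ⟨R, hR⟩ : ∃ R, R = ∑ i ∈ Tᶜ, x i * (u i : ℝ) := ⟨_, rfl⟩
  have hV : c ^ 2 - ∑ i ∈ T, x i ^ 2 = q + A := by
    have := Finset.sum_add_sum_compl T fun i => x i ^ 2
    rw [hqd, hA]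
    linarith
  have hg : (e : ℝ) ^ 2 - ∑ i ∈ T, (u i : ℝ) ^ 2 = U - k := by
    have := Finset.sum_add_sum_compl T fun i => (u i : ℝ) ^ 2
    rw [hk, hU]
    linarith
  rw [hV] at hkS ⊢
  rw [hg]
  rw [← hqd] at h hq
  have hA0 : 0 ≤ A := by rw [hA]; exact Finset.sum_nonneg fun i _ => sq_nonneg _
  have hU0 : 0 ≤ U := by rw [hU]; exact Finset.sum_nonneg fun i _ => sq_nonneg _
  have hcs : R ^ 2 ≤ A * U := by
    rw [hR, hA, hU]
    exact Finset.sum_mul_sq_le_sq_mul_sq _ _ _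
  have h1 : ∑ i ∈ Tᶜ, ((u i : ℝ) - t * x i) ^ 2 ≤ ∑ i, ((u i : ℝ) - t * x i) ^ 2 :=
    Finset.sum_le_sum_of_subset_of_nonneg (Finset.subset_univ _) fun i _ _ => sq_nonneg _
  have h2 : ∑ i ∈ Tᶜ, ((u i : ℝ) - t * x i) ^ 2 = U - 2 * t * R + t ^ 2 * A := by
    have e1 : ∀ i, ((u i : ℝ) - t * x i) ^ 2 =
        (u i : ℝ) ^ 2 - 2 * t * (x i * u i) + t ^ 2 * x i ^ 2 := fun i => by ring
    simp only [e1]
    rw [Finset.sum_add_distrib, Finset.sum_sub_distrib, ← Finset.mul_sum, ← Finset.mul_sum,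
      hU, hR, hA]
  have h3 : U - k + t ^ 2 * (q + A) ≤ 2 * t * R := by linarith
  have hRU : (2 * t * R) ^ 2 ≤ 4 * (t ^ 2 * (q + A)) * U := by
    have e1 : (2 * t * R) ^ 2 = 4 * t ^ 2 * R ^ 2 := by ring
    rw [e1]
    have h4 : 4 * t ^ 2 * R ^ 2 ≤ 4 * t ^ 2 * (A * U) := mul_le_mul_of_nonneg_left hcs (by positivity)
    have h5 : 0 ≤ 4 * t ^ 2 * (q * U) := mul_nonneg (by positivity) (mul_nonneg hq hU0)
    linarith
  have h6 : 0 ≤ U - k + t ^ 2 * (q + A) := by linarith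
  have h7 := pow_le_pow_left₀ h6 h3 2
  have e1 : (U - k - t ^ 2 * (q + A)) ^ 2 = (U - k + t ^ 2 * (q + A)) ^ 2 -
    4 * (t ^ 2 * (q + A)) * U + 4 * (t ^ 2 * (q + A)) * k := by ring
  rw [e1]
  linarith

/-- The condition on the class. -/
def Small (V q c m : ℝ) : Prop :=
  400000000 * c * m ^ 3 ≤ V * q ∨ 4 * 10 ^ 37 * m ^ 27 ≤ c * q ^ 13

/-- Standard curves. -/
theorem core {r : ℕ} {P : Fin (r + 4) → Fin 2 → ℂ}
    (hP : AlgebraicIndependent ℚ (fun ij : Fin (r + 4) × Fin 2 => P ij.1 ij.2))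
    {x : Fin (r + 4) → ℝ} {c m : ℝ} (hc : 0 ≤ c)
    {T : Finset (Fin (r + 4))} (hT : T.card ≤ 9) (hm : ∀ i, i ∉ T → x i ≤ m)
    (hD0 : 0 ≤ c ^ 2 - ∑ i, x i ^ 2)
    (hD : Small (c ^ 2 - ∑ i ∈ T, x i ^ 2) (c ^ 2 - ∑ i, x i ^ 2) c m)
    {e : ℕ} {u : Fin (r + 4) → ℕ} (hred : Reduced e u)
    (hI : Irr P e u) : ∑ i, x i * (u i : ℝ) ≤ c * e := by
  classical
  by_contra hcon
  push Not at hcon
  obtain ⟨hc0, hneg⟩ := neg_of hc hD0 hcon
  obtain ⟨k, hk0, hk, hkR⟩ := ip_neg hneg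
  obtain ⟨t, ht0, htc, hs⟩ := sphere hc0 (Irr.pos hI) hcon
  rw [← hkR] at hs
  have heR : (0 : ℝ) < e := by exact_mod_cast Irr.pos hI
  have hk0R : (0 : ℝ) < k := by exact_mod_cast hk0
  -- the largest multiplicity outside of `T`
  obtain ⟨j0, hj0T, hj04⟩ := exists_out hP hI (by rw [hk]; linarith) hT
  obtain ⟨j, hjT, hjmax⟩ := Finset.exists_max_image Tᶜ u ⟨j0, Finset.mem_compl.2 hj0T⟩
  have hjT' : j ∉ T := Finset.mem_compl.1 hjT
  have hj4 : 4 ≤ u j := hj04.trans (hjmax j0 (Finset.mem_compl.2 hj0T))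
  have hb : ∀ i, i ∉ T → u i ≤ u j := fun i hi => hjmax i (Finset.mem_compl.2 hi)
  have h8 := eight hP hI hk hk0 (j := j) (by omega)
  have h9 := xuk hP hI hk (j := j) (by omega)
  have hG := not_ge hP hI hk hk0
  have hinter : SHDefs.inter e u e u < 0 := by
    rw [SH.inter_eq, hk]
    omega
  obtain ⟨b1, b2, -⟩ := Neg.bounds (n := r + 4) (by omega) hred hT hb hG (xu_nat hP hI) hinter
  obtain ⟨b, hbd⟩ : ∃ b : ℝ, b = u j := ⟨_, rfl⟩
  have hb4 : 4 ≤ b := by rw [hbd]; exact_mod_cast hj4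
  have h8R : 8 * (k : ℝ) ≤ b ^ 2 := by rw [hbd]; exact_mod_cast h8
  have h9R : (k : ℝ) ≤ b := by rw [hbd]; exact_mod_cast h9
  have b1R : (e : ℝ) < 10000000000000000000000000000000 * (b + 1) ^ 14 := by
    rw [hbd]; exact_mod_cast b1
  have b2R : (e : ℝ) ^ 2 - ∑ i ∈ T, (u i : ℝ) ^ 2 < 60000000 * ((b + 1) ^ 2 * (e + b + 2)) := by
    rw [hbd]; exact_mod_cast b2
  -- the coefficient
  obtain ⟨q, hqd⟩ : ∃ q, q = c ^ 2 - ∑ i, x i ^ 2 := ⟨_, rfl⟩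
  rw [← hqd] at hD0 hD
  have ha0 : 0 ≤ t ^ 2 * q := mul_nonneg (sq_nonneg t) hD0
  have hsum : (b - t * x j) ^ 2 ≤ ∑ i, ((u i : ℝ) - t * x i) ^ 2 := by
    rw [hbd]
    exact Finset.single_le_sum (f := fun i => ((u i : ℝ) - t * x i) ^ 2)
      (fun _ _ => sq_nonneg _) (Finset.mem_univ j)
  have hsum0 : 0 ≤ ∑ i, ((u i : ℝ) - t * x i) ^ 2 := Finset.sum_nonneg fun i _ => sq_nonneg _
  have hs' : ∑ i, ((u i : ℝ) - t * x i) ^ 2 + t ^ 2 * q < k := by rw [hqd]; exact hs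
  have hy := low (b := b) (y := t * x j) (k := k) (s := t ^ 2 * q) (by linarith) ha0 h8R hb4
  have hym : t * x j ≤ t * m := mul_le_mul_of_nonneg_left (hm j hjT') ht0.le
  have hym' : 16 * b ≤ 25 * (t * m) := by linarith
  have hm0 : 0 < m := by
    have h1 : 0 < t * m := by linarith
    exact (pos_iff_pos_of_mul_pos h1).1 ht0
  have hak : t ^ 2 * q < k := by linarith
  obtain ⟨V, hV⟩ : ∃ V, V = c ^ 2 - ∑ i ∈ T, x i ^ 2 := ⟨_, rfl⟩
  rcases hD with h | h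
  · have hqV : q ≤ V := by
      have h1 : ∑ i ∈ T, x i ^ 2 ≤ ∑ i, x i ^ 2 :=
        Finset.sum_le_sum_of_subset_of_nonneg (Finset.subset_univ _) fun i _ _ => sq_nonneg _
      rw [hqd, hV]
      linarith
    have hVc : V ≤ c ^ 2 := by
      have h1 : 0 ≤ ∑ i ∈ T, x i ^ 2 := Finset.sum_nonneg fun i _ => sq_nonneg _
      rw [hV]
      linarith
    rw [← hV] at h
    have hvol := vol hc0 hm0 hqV hVc hD0 h
    refine caseB (b := b) (e := e) (k := k) (g := (e : ℝ) ^ 2 - ∑ i ∈ T, (u i : ℝ) ^ 2)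
      (S := t ^ 2 * V) (y := t * m) (a := t ^ 2 * q) hb4 hk0R h8R h9R hym' hak heR ?_ ?_
      (fun h1 => ?_) b2R ?_
    · have h1 := mul_le_mul_of_nonneg_left hVc (sq_nonneg t)
      have e1 : t ^ 2 * c ^ 2 = (e : ℝ) ^ 2 := by rw [← mul_pow, htc]
      linarith
    · have h1 := mul_le_mul_of_nonneg_left hvol (sq_nonneg t)
      rw [mul_pow]
      linarith
    · rw [hV] at h1 ⊢
      exact tube T hkR (by rw [← hqd]; exact hD0) hs h1
    · have h1 := mul_le_mul_of_nonneg_left h (by positivity : 0 ≤ t ^ 4)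
      have e1 : t ^ 4 * (400000000 * c * m ^ 3) = 400000000 * (t * c) * (t * m) ^ 3 := by ring
      have e2 : t ^ 4 * (V * q) = t ^ 2 * V * (t ^ 2 * q) := by ring
      rw [e1, e2, htc] at h1
      exact h1
  · refine caseA (b := b) (e := e) (k := k) (y := t * m) (a := t ^ 2 * q) hb4 h9R hym' ha0 hak heR
      b1R ?_
    have h1 := mul_le_mul_of_nonneg_left h (by positivity : 0 ≤ t ^ 27)
    have e1 : t ^ 27 * (4 * 10 ^ 37 * m ^ 27) = 4 * 10 ^ 37 * (t * m) ^ 27 := by ring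
    have e2 : t ^ 27 * (c * q ^ 13) = (t * c) * (t ^ 2 * q) ^ 13 := by ring
    rw [e1, e2, htc] at h1
    exact h1

/-- Standard classes. -/
theorem std {r : ℕ} {P : Fin (r + 4) → Fin 2 → ℂ}
    (hP : AlgebraicIndependent ℚ (fun ij : Fin (r + 4) × Fin 2 => P ij.1 ij.2))
    {x : Fin (r + 4) → ℝ} {c m : ℝ} (hc : 0 ≤ c) (hx0 : ∀ i, 0 ≤ x i)
    (hstd : ∀ i j k, i ≠ j → i ≠ k → j ≠ k → x i + x j + x k ≤ c) {T : Finset (Fin (r + 4))}
    (hT : T.card ≤ 9) (hm : ∀ i, i ∉ T → x i ≤ m) (hD0 : 0 ≤ c ^ 2 - ∑ i, x i ^ 2)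
    (hD : Small (c ^ 2 - ∑ i ∈ T, x i ^ 2) (c ^ 2 - ∑ i, x i ^ 2) c m) :
    ∀ (e : ℕ) (u : Fin (r + 4) → ℕ), Irr P e u → ∑ i, x i * (u i : ℝ) ≤ c * e := by
  intro e
  induction e using Nat.strong_induction_on with
  | _ e ih =>
    intro u hI
    by_cases hred : Reduced e u
    · exact core hP hc hT hm hD0 hD hred hI
    · have hred' := hred
      unfold Reduced at hred'
      push Not at hred'
      obtain ⟨a, b, d, hab, had, hbd, hlt⟩ := hred'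
      have hi : Function.Injective ![a, b, d] := inj_cons hab had hbd
      have p := hI.ps hP hi
      have hc1 := cd_cast p
      have hc2 := hc1
      unfold dl at hc1
      have e0 : u (![a, b, d] 0) = u a := rfl
      have e1 : u (![a, b, d] 1) = u b := rfl
      have e2 : u (![a, b, d] 2) = u d := rfl
      rw [e0, e1, e2] at hc1
      have hlt' : cd ![a, b, d] e u < e := by omega
      have h1 := ih _ hlt' _ (hI.step hP hi)
      have h2 : ∀ j, ((wcr e ![a, b, d] u j : ℕ) : ℝ) =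
          (u j : ℝ) + (dl ![a, b, d] e u : ℝ) * (ic ![a, b, d] j : ℝ) := by
        intro j
        have := wcr_cast hi p j
        have h3 : (((wcr e ![a, b, d] u j : ℕ) : ℤ) : ℝ) =
            (((u j : ℤ) + dl ![a, b, d] e u * ic ![a, b, d] j : ℤ) : ℝ) := by rw [this]
        push_cast at h3
        exact h3
      have h3 : ((cd ![a, b, d] e u : ℕ) : ℝ) = (e : ℝ) + (dl ![a, b, d] e u : ℝ) := by
        have h3 : (((cd ![a, b, d] e u : ℕ) : ℤ) : ℝ) =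
            (((e : ℤ) + dl ![a, b, d] e u : ℤ) : ℝ) := by rw [hc2]
        push_cast at h3
        exact h3
      have h4 : ∑ j, x j * ((wcr e ![a, b, d] u j : ℕ) : ℝ) =
          ∑ j, x j * (u j : ℝ) + (dl ![a, b, d] e u : ℝ) * (x a + x b + x d) := by
        have e3 : ∀ j, x j * ((wcr e ![a, b, d] u j : ℕ) : ℝ) = x j * (u j : ℝ) +
            (dl ![a, b, d] e u : ℝ) * (x j * (ic ![a, b, d] j : ℝ)) := by
          intro j
          rw [h2]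
          ring
        rw [Finset.sum_congr rfl fun j _ => e3 j, Finset.sum_add_distrib, ← Finset.mul_sum,
          sum_ic_real hi x]
        rfl
      rw [h4, h3] at h1
      have h5 : (dl ![a, b, d] e u : ℝ) ≤ 0 := by
        have h6 : dl ![a, b, d] e u ≤ 0 := by
          unfold dl
          rw [e0, e1, e2]
          omega
        exact_mod_cast h6
      have h6 := hstd a b d hab had hbd
      have h7 : (dl ![a, b, d] e u : ℝ) * (c - (x a + x b + x d)) ≤ 0 :=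
        mul_nonpos_of_nonpos_of_nonneg h5 (by linarith)
      linarith

end Pool.Agent.H879.Nef
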