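import Pool.Agent.H879.Nef.Exact
import Pool.Agent.H879.Nef.Core

/-! Ample cores with arbitrary small coefficients at further points. -/

set_option autoImplicit false

namespace Pool.Agent.H879.Nef

open MvPolynomial Pool.Agent.W609 Pool.Agent.W609.CR Pool.Agent.TH167 Pool.Agent.TH167.SH
open Pool.Agent.R355.NegOrb Pool.Agent.R355.CanDeg
open Pool.Agent.K4H28.TC
open Pool.Agent.Y205.MD
open Pool.Agent.TH387.SH (TF coe_TF card_TF)

/-- a form of a class of expected dimension zero -/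
theorem contra {n : ℕ} {P : Fin n → Fin 2 → ℂ}
    (hP : AlgebraicIndependent ℚ (fun ij : Fin n × Fin 2 => P ij.1 ij.2)) {E : ℕ} {U : Fin n → ℕ}
    {F : MvPolynomial (Fin 3) ℂ} (hF0 : F ≠ 0) (hF : F.IsHomogeneous E)
    (hFU : ∀ i, Van (aff (P i)) (U i) F) (hx : SH.chi E U ≤ 0)
    (h : crk (TF E) U = (E + 2).choose 2 - ∑ i, (U i + 1).choose 2) : False := by
  have h1 : 1 ≤ crk (TF E) U := by
    refine Pool.Agent.H879.Pos.crk_of_mem hP (G := F) hF0 ?_
    rw [← vs_eq_forms, mem_VS]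
    exact ⟨hF, hFU⟩
  rw [SH.chi_cast] at hx
  omega

/-- the largest multiplicity outside of the core, for `(-1)`-curves -/
theorem one_low {s : ℕ} {x : Fin s → ℝ} {t m : ℝ} {u : Fin s → ℕ} {T : Finset (Fin s)}
    {j : Fin s} (ht : 0 < t) (hm : ∀ i, i ∉ T → x i ≤ m) (hj : j ∉ T)
    (hmax : ∀ i, i ∉ T → u i ≤ u j) (h4 : 4 ≤ ∑ i ∈ Tᶜ, u i)
    (h : ∑ i, ((u i : ℝ) - t * x i) ^ 2 < 1) : (u j : ℝ) ≤ 2 * (t * m) := by
  classical
  have hym : ∀ i, i ∉ T → t * x i ≤ t * m := fun i hi => mul_le_mul_of_nonneg_left (hm i hi) ht.le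
  by_contra hcon
  push Not at hcon
  rcases Nat.lt_or_ge (u j) 2 with h2 | h2
  · have h3 : (u j : ℝ) ≤ 1 := by exact_mod_cast (by omega : u j ≤ 1)
    have h5 : ∑ i ∈ Tᶜ, ((u i : ℕ) : ℝ) / 4 ≤ ∑ i ∈ Tᶜ, ((u i : ℝ) - t * x i) ^ 2 := by
      refine Finset.sum_le_sum fun i hi => ?_
      have hiT := Finset.mem_compl.1 hi
      have h6 : u i = 0 ∨ u i = 1 := by
        have := hmax i hiT
        omega
      rcases h6 with h6 | h6
      · rw [h6]
        have := sq_nonneg (((0 : ℕ) : ℝ) - t * x i)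
        simpa using this
      · rw [h6]
        have h7 := hym i hiT
        have h8 : (1 / 2 : ℝ) ≤ ((1 : ℕ) : ℝ) - t * x i := by
          push_cast
          linarith
        have h9 := pow_le_pow_left₀ (by norm_num) h8 2
        push_cast at h9 ⊢
        linarith
    have h6 : ∑ i ∈ Tᶜ, ((u i : ℝ) - t * x i) ^ 2 ≤ ∑ i, ((u i : ℝ) - t * x i) ^ 2 :=
      Finset.sum_le_sum_of_subset_of_nonneg (Finset.subset_univ _) fun i _ _ => sq_nonneg _
    rw [← Finset.sum_div] at h5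
    have h7 : (4 : ℝ) ≤ ∑ i ∈ Tᶜ, (u i : ℝ) := by exact_mod_cast h4
    linarith
  · have h3 : (2 : ℝ) ≤ u j := by exact_mod_cast h2
    have h5 : ((u j : ℝ) - t * x j) ^ 2 ≤ ∑ i, ((u i : ℝ) - t * x i) ^ 2 :=
      Finset.single_le_sum (f := fun i => ((u i : ℝ) - t * x i) ^ 2)
        (fun _ _ => sq_nonneg _) (Finset.mem_univ j)
    have h6 := hym j hj
    have h7 : (1 : ℝ) ≤ (u j : ℝ) - t * x j := by linarith
    have h8 := pow_le_pow_left₀ (by norm_num) h7 2
    linarith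

/-- **Ample cores.** -/
theorem nef_core {r : ℕ} {P : Fin (r + 4) → Fin 2 → ℂ}
    (hP : AlgebraicIndependent ℚ (fun ij : Fin (r + 4) × Fin 2 => P ij.1 ij.2))
    {x : Fin (r + 4) → ℝ} {c ρ m δ : ℝ} {T : Finset (Fin (r + 4))} {κ : ℕ}
    (hx0 : ∀ i, 0 ≤ x i) (hκ : 9 ≤ κ) (hTκ : T.card ≤ κ) (hρ : 0 < ρ)
    (hpos : ∀ (F : MvPolynomial (Fin 3) ℂ) (e : ℕ) (v : Fin (r + 4) → ℕ), F ≠ 0 →
      F.IsHomogeneous e → (∀ i, Van (aff (P i)) (v i) F) →
      ∑ i ∈ T, x i * (v i : ℝ) ≤ (c - ρ) * e)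
    (hm0 : 0 ≤ m) (hm : ∀ i, i ∉ T → x i ≤ m) (hδ0 : 0 < δ) (hδ1 : δ ≤ 1)
    (hq : δ * m ^ 2 ≤ c ^ 2 - ∑ i, x i ^ 2) (hsmall : 10 ^ 24 * √(κ : ℝ) * m ≤ ρ * δ ^ 10)
    {G : MvPolynomial (Fin 3) ℂ} {e : ℕ} {u : Fin (r + 4) → ℕ} (hG : Irreducible G)
    (hGe : G.IsHomogeneous e) (hu : ∀ j, Ord (aff (P j)) (u j) G) :
    ∑ i, x i * (u i : ℝ) ≤ c * e := by
  classical
  by_contra hcon
  push Not at hcon
  have hcρ : 0 ≤ c - ρ := by
    obtain ⟨F, h1, h2, h3⟩ := exists_van P (e := 1) (v := fun _ => 0) (by simp)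
    have := hpos F 1 (fun _ => 0) h1 h2 h3
    simpa using this
  have hc : 0 ≤ c := by linarith
  have hD0 : 0 ≤ c ^ 2 - ∑ i, x i ^ 2 := (mul_nonneg hδ0.le (sq_nonneg m)).trans hq
  obtain ⟨hc0, hneg⟩ := neg_of hc hD0 hcon
  obtain ⟨k, hk0, hk, hkR⟩ := ip_neg hneg
  have he := deg_pos hG hGe
  obtain ⟨t, ht0, htc, hs⟩ := sphere hc0 he hcon
  rw [← hkR] at hs
  have heR : (1 : ℝ) ≤ e := by exact_mod_cast he
  obtain ⟨q, hqd⟩ : ∃ q, q = c ^ 2 - ∑ i, x i ^ 2 := ⟨_, rfl⟩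
  rw [← hqd] at hs hD0 hq
  have hs3 : 3 ≤ √(κ : ℝ) := by
    refine Real.le_sqrt_of_sq_le ?_
    have : (9 : ℝ) ≤ κ := by exact_mod_cast hκ
    linarith
  have ha0 : 0 ≤ t ^ 2 * q := mul_nonneg (sq_nonneg t) hD0
  -- the multiplicities outside of the core
  have hsum4 : 4 ≤ ∑ i ∈ Tᶜ, u i := by
    by_contra hlt
    push Not at hlt
    have h3 : ((∑ i ∈ Tᶜ, u i : ℕ) : ℝ) ≤ 3 := by exact_mod_cast (by omega : ∑ i ∈ Tᶜ, u i ≤ 3)
    have h1 := hpos G e u hG.ne_zero hGe fun i => (hu i).1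
    have h2 : ∑ i ∈ Tᶜ, x i * (u i : ℝ) ≤ m * ∑ i ∈ Tᶜ, (u i : ℝ) := by
      rw [Finset.mul_sum]
      exact Finset.sum_le_sum fun i hi =>
        mul_le_mul_of_nonneg_right (hm i (Finset.mem_compl.1 hi)) (Nat.cast_nonneg _)
    have h4 := Finset.sum_add_sum_compl T fun i => x i * (u i : ℝ)
    push_cast at h3
    have h5 : m * ∑ i ∈ Tᶜ, (u i : ℝ) ≤ m * 3 := mul_le_mul_of_nonneg_left h3 hm0
    have h6 : 3 * m ≤ ρ := by
      have h7 : δ ^ 10 ≤ 1 := pow_le_one₀ hδ0.le hδ1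
      have h8 : ρ * δ ^ 10 ≤ ρ * 1 := mul_le_mul_of_nonneg_left h7 hρ.le
      have h9 : 3 * m ≤ √(κ : ℝ) * m := mul_le_mul_of_nonneg_right hs3 hm0
      have h10 : 0 ≤ √(κ : ℝ) * m := mul_nonneg (by linarith) hm0
      linarith
    have h7 : ρ * 1 ≤ ρ * e := mul_le_mul_of_nonneg_left heR hρ.le
    linarith
  obtain ⟨j, hjT, hjmax⟩ := Finset.exists_max_image Tᶜ u (by
    by_contra hne
    rw [Finset.not_nonempty_iff_eq_empty] at hne
    rw [hne] at hsum4
    simp at hsum4)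
  have hjT' : j ∉ T := Finset.mem_compl.1 hjT
  have hb : ∀ i, i ∉ T → u i ≤ u j := fun i hi => hjmax i (Finset.mem_compl.2 hi)
  have hj1 : 1 ≤ u j := by
    by_contra h0
    have h1 : ∑ i ∈ Tᶜ, u i = 0 := Finset.sum_eq_zero fun i hi => by
      have := hjmax i hi
      omega
    omega
  have hjR : (1 : ℝ) ≤ u j := by exact_mod_cast hj1
  have hsum0 : 0 ≤ ∑ i, ((u i : ℝ) - t * x i) ^ 2 := Finset.sum_nonneg fun i _ => sq_nonneg _
  have hsT : ∑ i ∈ T, ((u i : ℝ) - t * x i) ^ 2 ≤ ∑ i, ((u i : ℝ) - t * x i) ^ 2 :=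
    Finset.sum_le_sum_of_subset_of_nonneg (Finset.subset_univ _) fun i _ _ => sq_nonneg _
  by_cases hne : ip e u e u = -1 ∧ kk e u = 1
  · -- a `(-1)`-curve
    have hk1 : (k : ℝ) = 1 := by
      have : k = 1 := by
        have := hne.1
        rw [hk] at this
        omega
      rw [this]
      norm_num
    rw [hk1] at hs
    have hlow := one_low ht0 hm hjT' hb hsum4 (by linarith)
    have hR := room_num (δ := δ) (m := m) (τ := 2 * t) (b := ((2 * u j : ℕ) : ℝ)) (q := q)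
      (ρ := ρ) (s := √(κ : ℝ)) hδ0 hδ1 (by push_cast; linarith) (by positivity)
      (by push_cast; linarith) hq (by push_cast; nlinarith) (by linarith) hsmall
    have hex := core_exact (U := fun i => 2 * u i) (E := 2 * e) (b := 2 * u j) (τ := 2 * t) hP hx0
      hκ hTκ hpos (by omega) (fun i hi => Nat.mul_le_mul_left _ (hb i hi)) (by positivity)
      (by push_cast; rw [mul_assoc, htc]) (by
        have e1 : ∀ i, (((2 * u i : ℕ) : ℝ) - 2 * t * x i) ^ 2 = 4 * ((u i : ℝ) - t * x i) ^ 2 := by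
          intro i
          push_cast
          ring
        rw [Finset.sum_congr rfl fun i _ => e1 i, ← Finset.mul_sum]
        push_cast
        linarith) hR
    refine contra hP (F := G * G) (mul_ne_zero hG.ne_zero hG.ne_zero) (by
      have := hGe.mul hGe
      rwa [← two_mul] at this) (fun i => ?_) ?_ hex
    · have := SH.van_mul (hu i).1 (hu i).1
      rwa [← two_mul] at this
    · have h7 := SH.two_chi (2 * e) (fun i => 2 * u i)
      have e1 : ip (2 * e) (fun i => 2 * u i) (2 * e) (fun i => 2 * u i) = 4 * ip e u e u := by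
        unfold ip
        push_cast
        rw [mul_sub, Finset.mul_sum]
        congr 1
        · ring
        · exact Finset.sum_congr rfl fun i _ => by ring
      have e2 : kk (2 * e) (fun i => 2 * u i) = 2 * kk e u := by
        unfold kk
        push_cast
        rw [mul_sub, Finset.mul_sum]
        ring
      rw [e1, e2, hne.1, hne.2] at h7
      omega
  · -- the other negative curves
    have hI : Irr P e u := ⟨⟨G, hG, hGe, hu⟩, hne⟩
    have hj4 : 4 ≤ u j := by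
      by_contra hlt
      push Not at hlt
      rcases CL.neg_cl hP hG hGe hu (by rw [hk]; linarith) hne with hcl | ⟨-, j1, hj1', hcl⟩
      · have := hcl j (by omega)
        omega
      · have h1 : ∑ i ∈ Tᶜ, u i ≤ ∑ i ∈ Tᶜ, (if i = j1 then 1 else 0) := by
          refine Finset.sum_le_sum fun i hi => ?_
          by_cases hij : i = j1
          · rw [if_pos hij, hij, hj1']
          · rw [if_neg hij]
            by_contra h0
            have := hcl i hij (by omega)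
            have := hjmax i hi
            omega
        have h2 : ∑ i ∈ Tᶜ, (if i = j1 then 1 else 0) ≤ 1 := by
          rw [Finset.sum_ite_eq']
          split_ifs <;> norm_num
        omega
    have h8 := eight hP hI hk hk0 (j := j) (by omega)
    have h9 := xuk hP hI hk (j := j) (by omega)
    have hb4 : (4 : ℝ) ≤ u j := by exact_mod_cast hj4
    have h8R : 8 * (k : ℝ) ≤ (u j : ℝ) ^ 2 := by exact_mod_cast h8
    have h9R : (k : ℝ) ≤ u j := by exact_mod_cast h9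
    have hsum : ((u j : ℝ) - t * x j) ^ 2 ≤ ∑ i, ((u i : ℝ) - t * x i) ^ 2 :=
      Finset.single_le_sum (f := fun i => ((u i : ℝ) - t * x i) ^ 2)
        (fun _ _ => sq_nonneg _) (Finset.mem_univ j)
    have hy := low (b := (u j : ℝ)) (y := t * x j) (k := k) (s := t ^ 2 * q) (by linarith) ha0 h8R
      hb4
    have hym : t * x j ≤ t * m := mul_le_mul_of_nonneg_left (hm j hjT') ht0.le
    have hR := room_num (δ := δ) (m := m) (τ := t) (b := (u j : ℝ)) (q := q)
      (ρ := ρ) (s := √(κ : ℝ)) hδ0 hδ1 (by linarith) ht0 (by linarith) hq (by linarith)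
      (by linarith) hsmall
    have hex := core_exact (U := u) (E := e) (b := u j) (τ := t) hP hx0 hκ hTκ hpos (by omega)
      hb ht0 htc (by linarith) hR
    obtain ⟨κ', hκ'⟩ : ∃ κ', kk e u = -κ' := ⟨-kk e u, (neg_neg _).symm⟩
    obtain ⟨hκ3, -⟩ := main hP hI hk hk0 hκ'
    have h7 := SH.two_chi e u
    rw [hk, hκ'] at h7
    exact contra hP hG.ne_zero hGe (fun i => (hu i).1) (by omega) hex

end Pool.Agent.H879.Nef
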