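import Pool.Agent.H879.Nef.Adj

/-! Emptiness over an ample core. -/

set_option autoImplicit false

namespace Pool.Agent.H879.Nef

open MvPolynomial Pool.Agent.W609 Pool.Agent.W609.CR Pool.Agent.TH167.SH Pool.Agent.TH167.TT
open Pool.Agent.K4H28.TC (form_of_irr)
open Pool.Agent.Y205.MD
open Pool.Agent.TH387.SH (TF coe_TF card_TF)
open Pool.Agent.H879.Pos (finrank_ind nagata_sub le_deg)

/-- numbers: the scaled class -/
theorem scale {V S b : ℝ} (hb : 0 < b) (hV : 4 * b < V) (hS : V + b ≤ S) :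
    ∃ θ : ℝ, 0 ≤ θ ∧ θ ≤ 1 ∧ θ ^ 2 * S = V - 4 / 5 * b ∧ V < θ * S := by
  have hS0 : 0 < S := by linarith
  have hVa : 0 ≤ V - 4 / 5 * b := by linarith
  obtain ⟨θ, hθ⟩ : ∃ θ, θ = √((V - 4 / 5 * b) / S) := ⟨_, rfl⟩
  have hθ0 : 0 ≤ θ := by
    rw [hθ]
    exact Real.sqrt_nonneg _
  have hθ2 : θ ^ 2 * S = V - 4 / 5 * b := by
    rw [hθ, Real.sq_sqrt (div_nonneg hVa hS0.le)]
    field_simp
  have hθ1 : θ ≤ 1 := by
    by_contra hcon
    push Not at hcon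
    have h1 : 1 < θ ^ 2 := by nlinarith
    have h2 : 1 * S < θ ^ 2 * S := mul_lt_mul_of_pos_right h1 hS0
    linarith
  refine ⟨θ, hθ0, hθ1, hθ2, ?_⟩
  by_contra hcon
  push Not at hcon
  rcases lt_or_ge (4 / 5) θ with h | h
  · have e2 : (1 + θ) * ((1 - θ) * S) = S - (V - 4 / 5 * b) := by
      rw [← hθ2]
      ring
    have h3 : θ * (9 / 5 * b) ≤ θ * ((1 + θ) * ((1 - θ) * S)) := by
      refine mul_le_mul_of_nonneg_left ?_ hθ0
      rw [e2]
      linarith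
    have e1 : θ * ((1 - θ) * S) = θ * S - θ ^ 2 * S := by ring
    have h4 : (1 + θ) * (θ * ((1 - θ) * S)) ≤ (1 + θ) * (4 / 5 * b) := by
      refine mul_le_mul_of_nonneg_left ?_ (by linarith)
      rw [e1, hθ2]
      linarith
    have e3 : θ * ((1 + θ) * ((1 - θ) * S)) = (1 + θ) * (θ * ((1 - θ) * S)) := by ring
    have h5 : (θ - 4 / 5) * b ≤ 0 := by linarith
    have := mul_pos (by linarith : 0 < θ - 4 / 5) hb
    linarith
  · have h1 : θ * (θ * S) ≤ θ * V := mul_le_mul_of_nonneg_left hcon hθ0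
    have h2 : θ * V ≤ 4 / 5 * V := mul_le_mul_of_nonneg_right h (by linarith)
    have e1 : θ * (θ * S) = V - 4 / 5 * b := by
      rw [← hθ2]
      ring
    linarith

/-- **emptiness outside of the positive cone, over an ample core** -/
theorem empty_amp {r d : ℕ} {P : Fin (r + 4) → Fin 2 → ℂ}
    (hP : AlgebraicIndependent ℚ (fun ij : Fin (r + 4) × Fin 2 => P ij.1 ij.2))
    {w : Fin (r + 4) → ℕ} {ρ m δ : ℝ} {T : Finset (Fin (r + 4))} {κ : ℕ}
    (hκ : 9 ≤ κ) (hTκ : T.card ≤ κ)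
    (hpos : ∀ (F : MvPolynomial (Fin 3) ℂ) (e : ℕ) (v : Fin (r + 4) → ℕ), F ≠ 0 →
      F.IsHomogeneous e → (∀ i, Van (aff (P i)) (v i) F) →
      ∑ i ∈ T, (w i : ℝ) * (v i : ℝ) ≤ (d - ρ) * e)
    (hm0 : 0 ≤ m) (hm : ∀ i, i ∉ T → (w i : ℝ) ≤ m) (hδ0 : 0 < δ) (hδ1 : δ ≤ 1)
    (hsmall : 10 ^ 25 * √(κ : ℝ) * (m + 1) ≤ ρ * δ ^ 10)
    (hneg : (d : ℝ) ^ 2 + δ * m ^ 2 ≤ ∑ i, (w i : ℝ) ^ 2) : crk (TF d) w = 0 := by
  classical
  have hs3 : 3 ≤ √(κ : ℝ) := by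
    refine Real.le_sqrt_of_sq_le ?_
    have : (9 : ℝ) ≤ κ := by exact_mod_cast hκ
    linarith
  have h10 : δ ^ 10 ≤ 1 := pow_le_one₀ hδ0.le hδ1
  have h100 : 0 < δ ^ 10 := by positivity
  have hL : 0 < 10 ^ 25 * √(κ : ℝ) * (m + 1) := by positivity
  have hρ : 0 < ρ := by
    by_contra hcon
    push Not at hcon
    have := mul_nonpos_of_nonpos_of_nonneg hcon h100.le
    linarith
  have hρ1 : 4 * (m + 1) ≤ ρ := by
    have h1 : ρ * δ ^ 10 ≤ ρ := by
      have := mul_le_mul_of_nonneg_left h10 hρ.le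
      linarith
    have h2 : 3 * (m + 1) ≤ √(κ : ℝ) * (m + 1) := mul_le_mul_of_nonneg_right hs3 (by linarith)
    linarith
  -- the volume of the core
  have hpos' : ∀ (F : MvPolynomial (Fin 3) ℂ) (e : ℕ) (v : Fin (r + 4) → ℕ), F ≠ 0 →
      F.IsHomogeneous e → (∀ i, Van (aff (P i)) (v i) F) →
      ∑ i, (if i ∈ T then (w i : ℝ) else 0) * (v i : ℝ) ≤ (d - ρ) * e := by
    intro F e v h1 h2 h3
    refine le_trans (le_of_eq ?_) (hpos F e v h1 h2 h3)
    simp only [ite_mul, zero_mul, Finset.sum_ite_mem, Finset.univ_inter]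
  have hdρ : 0 ≤ (d : ℝ) - ρ := deg_nonneg hpos'
  have hsq : ∑ i ∈ T, (w i : ℝ) ^ 2 ≤ ((d : ℝ) - ρ) ^ 2 := by
    refine le_trans (le_of_eq ?_) (sq_of_nef (fun i => ?_) hpos')
    · simp only [ite_pow, ne_eq, OfNat.ofNat_ne_zero, not_false_eq_true, zero_pow,
        Finset.sum_ite_mem, Finset.univ_inter]
    · split_ifs
      · exact Nat.cast_nonneg _
      · exact le_rfl
  obtain ⟨V, hV⟩ : ∃ V : ℝ, V = (d : ℝ) ^ 2 - ∑ i ∈ T, (w i : ℝ) ^ 2 := ⟨_, rfl⟩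
  obtain ⟨S, hS⟩ : ∃ S : ℝ, S = ∑ i ∈ Tᶜ, (w i : ℝ) ^ 2 := ⟨_, rfl⟩
  have hsplit : ∑ i, (w i : ℝ) ^ 2 = ∑ i ∈ T, (w i : ℝ) ^ 2 + S := by
    rw [hS]
    exact (Finset.sum_add_sum_compl T fun i => (w i : ℝ) ^ 2).symm
  have hVρ : ρ ^ 2 ≤ V := by
    rw [hV]
    nlinarith
  have hSV : V + δ * m ^ 2 ≤ S := by
    rw [hsplit] at hneg
    rw [hV]
    linarith
  rcases hm0.eq_or_lt with hm1 | hm1
  · -- no further points
    exfalso
    have h1 : S = 0 := by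
      rw [hS]
      refine Finset.sum_eq_zero fun i hi => ?_
      have h2 := hm i (Finset.mem_compl.1 hi)
      rw [← hm1] at h2
      have h3 : (w i : ℝ) = 0 := le_antisymm h2 (Nat.cast_nonneg _)
      rw [h3]
      norm_num
    have h2 : 0 < ρ ^ 2 := by positivity
    have h3 : 0 ≤ δ * m ^ 2 := by positivity
    linarith
  have hb : 0 < δ * m ^ 2 := by positivity
  have hbV : 4 * (δ * m ^ 2) < V := by
    have h1 : δ * m ^ 2 ≤ 1 * m ^ 2 := mul_le_mul_of_nonneg_right hδ1 (sq_nonneg m)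
    nlinarith
  obtain ⟨θ, hθ0, hθ1, hθ2, hθ3⟩ := scale hb hbV hSV
  by_contra hne
  have hc : 0 < Module.finrank ℂ ↥(Pool.Agent.H248R5.forms w P d) := by
    rw [finrank_ind w d hP]
    omega
  have hfin := Pool.Agent.H248R6.forms_finite w P d
  obtain ⟨⟨f, hf⟩, hf0⟩ := Module.finrank_pos_iff_exists_ne_zero.1 hc
  have hf0' : f ≠ 0 := fun h => hf0 (Subtype.ext h)
  rw [← vs_eq_forms] at hf
  unfold VS at hf
  rw [Submodule.mem_inf, mem_homogeneousSubmodule, Submodule.restrictScalars_mem,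
    Ideal.mem_iInf] at hf
  -- the scaled class is nef
  obtain ⟨x, hx⟩ : ∃ x : Fin (r + 4) → ℝ, x = fun i => if i ∈ T then (w i : ℝ) else θ * w i :=
    ⟨_, rfl⟩
  have hxT : ∀ i ∈ T, x i = w i := fun i hi => by
    rw [hx]
    exact if_pos hi
  have hxC : ∀ i, i ∉ T → x i = θ * w i := fun i hi => by
    rw [hx]
    exact if_neg hi
  have hx0 : ∀ i, 0 ≤ x i := by
    intro i
    by_cases hi : i ∈ T
    · rw [hxT i hi]
      exact Nat.cast_nonneg _
    · rw [hxC i hi]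
      exact mul_nonneg hθ0 (Nat.cast_nonneg _)
  have hsumx : ∑ i, x i ^ 2 = ∑ i ∈ T, (w i : ℝ) ^ 2 + θ ^ 2 * S := by
    rw [← Finset.sum_add_sum_compl T fun i => x i ^ 2, hS, Finset.mul_sum]
    congr 1
    · exact Finset.sum_congr rfl fun i hi => by rw [hxT i hi]
    · exact Finset.sum_congr rfl fun i hi => by
        rw [hxC i (Finset.mem_compl.1 hi)]
        ring
  have key := form_of_irr (p := P) (x := x) (c := d) hx0 (fun G e' u hG hGe hu =>
    nef_core hP (x := x) (c := d) (ρ := ρ) (m := m) (δ := 4 / 5 * δ) (T := T) (κ := κ) hx0 hκ hTκ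
      hρ (fun F e v h1 h2 h3 => by
        refine le_trans (le_of_eq ?_) (hpos F e v h1 h2 h3)
        exact Finset.sum_congr rfl fun i hi => by rw [hxT i hi])
      hm0 (fun i hi => by
        rw [hxC i hi]
        have h1 := hm i hi
        have h2 : θ * (w i : ℝ) ≤ 1 * (w i : ℝ) :=
          mul_le_mul_of_nonneg_right hθ1 (Nat.cast_nonneg _)
        linarith) (by positivity) (by linarith) (by
        rw [hsumx, hθ2, hV]
        linarith) (by
        have e1 : (4 / 5 * δ) ^ 10 = (4 / 5) ^ 10 * δ ^ 10 := mul_pow _ _ _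
        have h1 : (1 / 10 : ℝ) ≤ (4 / 5) ^ 10 := by norm_num
        have h2 : ρ * (1 / 10 * δ ^ 10) ≤ ρ * ((4 / 5) ^ 10 * δ ^ 10) :=
          mul_le_mul_of_nonneg_left (mul_le_mul_of_nonneg_right h1 h100.le) hρ.le
        rw [e1]
        have h3 : 0 ≤ √(κ : ℝ) := by linarith
        nlinarith) hG hGe hu) f hf0' d w hf.1 hf.2
  have e2 : ∑ i, x i * (w i : ℝ) = ∑ i ∈ T, (w i : ℝ) ^ 2 + θ * S := by
    rw [← Finset.sum_add_sum_compl T fun i => x i * (w i : ℝ), hS, Finset.mul_sum]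
    congr 1
    · exact Finset.sum_congr rfl fun i hi => by
        rw [hxT i hi]
        ring
    · exact Finset.sum_congr rfl fun i hi => by
        rw [hxC i (Finset.mem_compl.1 hi)]
        ring
  rw [e2] at key
  have e3 : (d : ℝ) * d = V + ∑ i ∈ T, (w i : ℝ) ^ 2 := by
    rw [hV]
    ring
  linarith

end Pool.Agent.H879.Nef
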