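import Pool.Agent.H879.Nef.Square

/-! Expected dimension for classes close to a multiple of a class with an ample core. -/

set_option autoImplicit false

namespace Pool.Agent.H879.Nef

open MvPolynomial Pool.Agent.W609 Pool.Agent.W609.CR Pool.Agent.TH167.SH Pool.Agent.TH167.TT
open Pool.Agent.H879.RV
open Pool.Agent.Y205.MD
open Pool.Agent.TH387.SH (TF coe_TF card_TF)
open Pool.Agent.H879.Pos (Posv finrank_ind small_crk crk_lower nagata_sub)

/-- the bound for the room -/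
theorem room_num {δ m τ b q ρ s : ℝ} (hδ0 : 0 < δ) (hδ1 : δ ≤ 1) (hb : 2 ≤ b) (hτ : 0 < τ)
    (hm : b ≤ 2 * (τ * m)) (hq : δ * m ^ 2 ≤ q) (hτq : τ ^ 2 * q ≤ 2 * b) (hs : 0 ≤ s)
    (h : 10 ^ 24 * s * m ≤ ρ * δ ^ 10) : 87960930222080 * (b + 1) ^ 11 * s ≤ τ * ρ := by
  have hb0 : 0 < b := by linarith
  have h1 : δ * b ≤ 8 := by
    have h2 : (b / 2) ^ 2 ≤ (τ * m) ^ 2 := pow_le_pow_left₀ (by linarith) (by linarith) 2
    have h3 : δ * (b / 2) ^ 2 ≤ δ * (τ * m) ^ 2 := mul_le_mul_of_nonneg_left h2 hδ0.le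
    have h4 : τ ^ 2 * (δ * m ^ 2) ≤ τ ^ 2 * q := mul_le_mul_of_nonneg_left hq (sq_nonneg τ)
    have e1 : δ * (τ * m) ^ 2 = τ ^ 2 * (δ * m ^ 2) := by ring
    have e2 : δ * (b / 2) ^ 2 = δ * b * b / 4 := by ring
    rw [e1, e2] at h3
    have h5 : δ * b * b ≤ 8 * b := by linarith
    exact le_of_mul_le_mul_right h5 hb0
  have h2 : (b + 1) * δ ≤ 9 := by linarith
  have h3 : ((b + 1) * δ) ^ 10 ≤ 9 ^ 10 := pow_le_pow_left₀ (by positivity) h2 10
  have hδ10 : 0 < δ ^ 10 := by positivity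
  refine le_of_mul_le_mul_right ?_ hδ10
  have e1 : 87960930222080 * (b + 1) ^ 11 * s * δ ^ 10 =
      87960930222080 * s * (b + 1) * ((b + 1) * δ) ^ 10 := by ring
  have h4 : 87960930222080 * s * (b + 1) * ((b + 1) * δ) ^ 10 ≤
      87960930222080 * s * (b + 1) * 9 ^ 10 := mul_le_mul_of_nonneg_left h3 (by positivity)
  have h5 : 87960930222080 * s * (b + 1) ≤ 87960930222080 * s * (3 / 2 * b) :=
    mul_le_mul_of_nonneg_left (by linarith) (by positivity)
  have h6 : s * b ≤ s * (2 * (τ * m)) := mul_le_mul_of_nonneg_left hm hs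
  have h7 := mul_le_mul_of_nonneg_left h hτ.le
  have h8 : 0 ≤ s * b := mul_nonneg hs hb0.le
  rw [e1]
  norm_num at h4 ⊢
  linarith

/-- the multiplicities in the core -/
theorem core_le {u x τ S : ℝ} (h : (u - τ * x) ^ 2 ≤ S) : u ≤ τ * x + √S := by
  have h1 : u - τ * x ≤ √S := Real.le_sqrt_of_sq_le h
  linarith

/-- **Exactness.** -/
theorem core_exact {r : ℕ} {P : Fin (r + 4) → Fin 2 → ℂ}
    (hP : AlgebraicIndependent ℚ (fun ij : Fin (r + 4) × Fin 2 => P ij.1 ij.2))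
    {x : Fin (r + 4) → ℝ} {c ρ τ : ℝ} {T : Finset (Fin (r + 4))} {κ E b : ℕ}
    {U : Fin (r + 4) → ℕ} (hx0 : ∀ i, 0 ≤ x i) (hκ : 9 ≤ κ) (hTκ : T.card ≤ κ)
    (hpos : ∀ (F : MvPolynomial (Fin 3) ℂ) (e : ℕ) (v : Fin (r + 4) → ℕ), F ≠ 0 →
      F.IsHomogeneous e → (∀ i, Van (aff (P i)) (v i) F) →
      ∑ i ∈ T, x i * (v i : ℝ) ≤ (c - ρ) * e)
    (hb2 : 2 ≤ b) (hUb : ∀ j, j ∉ T → U j ≤ b) (hτ : 0 < τ) (hτc : τ * c = E)
    (hdist : ∑ i ∈ T, ((U i : ℝ) - τ * x i) ^ 2 ≤ 2 * b)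
    (hR : 87960930222080 * ((b : ℝ) + 1) ^ 11 * √(κ : ℝ) ≤ τ * ρ) :
    crk (TF E) U = (E + 2).choose 2 - ∑ i, (U i + 1).choose 2 := by
  classical
  -- the core is of nonnegative degree and square
  have hpos' : ∀ (F : MvPolynomial (Fin 3) ℂ) (e : ℕ) (v : Fin (r + 4) → ℕ), F ≠ 0 →
      F.IsHomogeneous e → (∀ i, Van (aff (P i)) (v i) F) →
      ∑ i, (if i ∈ T then x i else 0) * (v i : ℝ) ≤ (c - ρ) * e := by
    intro F e v h1 h2 h3
    refine le_trans (le_of_eq ?_) (hpos F e v h1 h2 h3)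
    rw [← Finset.sum_filter_add_sum_filter_not Finset.univ (fun i => i ∈ T)]
    have e1 : ∑ i ∈ Finset.univ.filter (fun i => ¬ i ∈ T),
        (if i ∈ T then x i else 0) * (v i : ℝ) = 0 := Finset.sum_eq_zero fun i hi => by
      rw [if_neg (Finset.mem_filter.1 hi).2, zero_mul]
    rw [e1, add_zero]
    refine Finset.sum_congr (by ext i; simp) fun i hi => ?_
    rw [if_pos (by simpa using hi)]
  have hcρ : 0 ≤ c - ρ := deg_nonneg hpos'
  have hsq : ∑ i ∈ T, x i ^ 2 ≤ (c - ρ) ^ 2 := by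
    refine le_trans (le_of_eq ?_) (sq_of_nef (fun i => ?_) hpos')
    · rw [← Finset.sum_filter_add_sum_filter_not Finset.univ (fun i => i ∈ T)]
      have e1 : ∑ i ∈ Finset.univ.filter (fun i => ¬ i ∈ T),
          (if i ∈ T then x i else 0) ^ 2 = 0 := Finset.sum_eq_zero fun i hi => by
        rw [if_neg (Finset.mem_filter.1 hi).2]
        norm_num
      rw [e1, add_zero]
      refine Finset.sum_congr (by ext i; simp) fun i hi => ?_
      rw [if_pos (by simpa using hi)]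
    · split_ifs
      · exact hx0 i
      · exact le_rfl
  -- numbers
  obtain ⟨s, hs⟩ : ∃ s, s = √(κ : ℝ) := ⟨_, rfl⟩
  rw [← hs] at hR
  have hs3 : 3 ≤ s := by
    rw [hs]
    refine Real.le_sqrt_of_sq_le ?_
    have : (9 : ℝ) ≤ κ := by exact_mod_cast hκ
    linarith
  have hs0 : 0 ≤ s := by linarith
  have hss : s ^ 2 = κ := by rw [hs]; exact Real.sq_sqrt (Nat.cast_nonneg _)
  obtain ⟨R, hRd⟩ : ∃ R, R = τ * ρ := ⟨_, rfl⟩
  rw [← hRd] at hR
  obtain ⟨B, hB⟩ : ∃ B : ℝ, B = b := ⟨_, rfl⟩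
  have hB2 : 2 ≤ B := by rw [hB]; exact_mod_cast hb2
  rw [← hB] at hR hdist
  have hB1 : 1 ≤ B + 1 := by linarith
  have p3 : (B + 1) ^ 3 ≤ (B + 1) ^ 11 := pow_le_pow_right₀ hB1 (by norm_num)
  have p1 : B + 1 ≤ (B + 1) ^ 11 := le_self_pow₀ hB1 (by norm_num)
  have q1 : (B + 1) ^ 11 ≤ (B + 1) ^ 11 * s := by
    have := mul_le_mul_of_nonneg_left (by linarith : (1 : ℝ) ≤ s)
      (by positivity : 0 ≤ (B + 1) ^ 11)
    linarith
  have q2 : (B + 1) ^ 3 * s ≤ (B + 1) ^ 11 * s := mul_le_mul_of_nonneg_right p3 hs0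
  have q3 : (B + 1) * s ≤ (B + 1) ^ 11 * s := mul_le_mul_of_nonneg_right p1 hs0
  have q4 : s ≤ (B + 1) * s := by
    have := mul_le_mul_of_nonneg_right hB1 hs0
    linarith
  have hRE : R ≤ E := by
    rw [hRd, ← hτc]
    exact mul_le_mul_of_nonneg_left (by linarith) hτ.le
  have hE0 : (0 : ℝ) ≤ E := Nat.cast_nonneg _
  have hsB : √(2 * B) ≤ B := by
    rw [Real.sqrt_le_left (by linarith)]
    have := mul_le_mul_of_nonneg_right hB2 (by linarith : 0 ≤ B)
    rw [sq]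
    linarith
  -- the two parts
  obtain ⟨v, hv⟩ : ∃ v : Fin (r + 4) → ℕ, v = fun i => if i ∈ T then U i else 0 := ⟨_, rfl⟩
  obtain ⟨w, hw⟩ : ∃ w : Fin (r + 4) → ℕ, w = fun i => if i ∈ T then 0 else U i := ⟨_, rfl⟩
  have hvT : ∀ f : ℕ → ℝ → ℝ, (∀ y, f 0 y = 0) → ∀ y : Fin (r + 4) → ℝ,
      ∑ i, f (v i) (y i) = ∑ i ∈ T, f (U i) (y i) := by
    intro f hf y
    rw [← Finset.sum_filter_add_sum_filter_not Finset.univ (fun i => i ∈ T)]
    have e1 : ∑ i ∈ Finset.univ.filter (fun i => ¬ i ∈ T), f (v i) (y i) = 0 :=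
      Finset.sum_eq_zero fun i hi => by
        rw [hv]
        simp only
        rw [if_neg (Finset.mem_filter.1 hi).2, hf]
    rw [e1, add_zero]
    refine Finset.sum_congr (by ext i; simp) fun i hi => ?_
    rw [hv]
    simp only
    rw [if_pos (by simpa using hi)]
  have hUx : ∀ i ∈ T, (U i : ℝ) ≤ τ * x i + B := by
    intro i hi
    have h1 : ((U i : ℝ) - τ * x i) ^ 2 ≤ 2 * B :=
      le_trans (Finset.single_le_sum (f := fun i => ((U i : ℝ) - τ * x i) ^ 2)
        (fun _ _ => sq_nonneg _) hi) hdist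
    have := core_le h1
    linarith
  -- curves
  have hcurve : ∀ (e : ℕ) (z : Fin (r + 4) → ℕ), 1 ≤ crk (TF e) z →
      ∑ i ∈ T, (U i : ℝ) * z i ≤ (E - R + B * s) * e ∧ ∑ i ∈ T, (z i : ℝ) ≤ s * e := by
    intro e z hz
    have hn := nagata_sub (n := r + 4) (k := κ) (e := e) hκ (c := z) hTκ hz
    rw [← hs] at hn
    push_cast at hn
    refine ⟨?_, hn⟩
    rw [← finrank_ind z e hP] at hz
    have hfin := Pool.Agent.H248R6.forms_finite z P e
    obtain ⟨⟨f, hf⟩, hf0⟩ := Module.finrank_pos_iff_exists_ne_zero.1 (show 0 < _ from hz)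
    have hf0' : f ≠ 0 := fun h => hf0 (Subtype.ext h)
    rw [← vs_eq_forms] at hf
    unfold VS at hf
    rw [Submodule.mem_inf, mem_homogeneousSubmodule, Submodule.restrictScalars_mem,
      Ideal.mem_iInf] at hf
    have h1 := hpos f e z hf0' hf.1 hf.2
    have h2 : ∑ i ∈ T, (U i : ℝ) * z i ≤ ∑ i ∈ T, (τ * (x i * z i) + B * z i) := by
      refine Finset.sum_le_sum fun i hi => ?_
      have := mul_le_mul_of_nonneg_right (hUx i hi) (Nat.cast_nonneg (α := ℝ) (z i))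
      linarith
    rw [Finset.sum_add_distrib, ← Finset.mul_sum, ← Finset.mul_sum] at h2
    have h3 : τ * ∑ i ∈ T, x i * (z i : ℝ) ≤ τ * ((c - ρ) * e) :=
      mul_le_mul_of_nonneg_left h1 hτ.le
    have h4 : B * ∑ i ∈ T, (z i : ℝ) ≤ B * (s * e) := mul_le_mul_of_nonneg_left hn (by linarith)
    have e1 : τ * ((c - ρ) * e) = (E - R) * e := by rw [hRd, ← hτc]; ring
    rw [e1] at h3
    linarith
  -- the sums over the core
  obtain ⟨S2, hS2⟩ : ∃ S2 : ℝ, S2 = ∑ i ∈ T, (U i : ℝ) ^ 2 := ⟨_, rfl⟩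
  obtain ⟨S1, hS1⟩ : ∃ S1 : ℝ, S1 = ∑ i ∈ T, (U i : ℝ) := ⟨_, rfl⟩
  have hS20 : 0 ≤ S2 := by rw [hS2]; exact Finset.sum_nonneg fun i _ => sq_nonneg _
  have hS10 : 0 ≤ S1 := by rw [hS1]; exact Finset.sum_nonneg fun i _ => Nat.cast_nonneg _
  have hmink : √S2 ≤ E - R + B := by
    -- Minkowski
    obtain ⟨D, hD⟩ : ∃ D : ℝ, D = ∑ i ∈ T, ((U i : ℝ) - τ * x i) ^ 2 := ⟨_, rfl⟩
    obtain ⟨X, hX⟩ : ∃ X : ℝ, X = ∑ i ∈ T, (τ * x i) ^ 2 := ⟨_, rfl⟩
    have hD0 : 0 ≤ D := by rw [hD]; exact Finset.sum_nonneg fun i _ => sq_nonneg _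
    have hX0 : 0 ≤ X := by rw [hX]; exact Finset.sum_nonneg fun i _ => sq_nonneg _
    have hX1 : X ≤ (E - R) ^ 2 := by
      have e1 : X = τ ^ 2 * ∑ i ∈ T, x i ^ 2 := by
        rw [hX, Finset.mul_sum]
        exact Finset.sum_congr rfl fun i _ => by ring
      have e2 : (E - R) ^ 2 = τ ^ 2 * (c - ρ) ^ 2 := by rw [hRd, ← hτc]; ring
      rw [e1, e2]
      exact mul_le_mul_of_nonneg_left hsq (sq_nonneg τ)
    have hcs : (∑ i ∈ T, (τ * x i) * ((U i : ℝ) - τ * x i)) ^ 2 ≤ X * D := by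
      rw [hX, hD]
      exact Finset.sum_mul_sq_le_sq_mul_sq _ _ _
    have hexp : S2 = X + 2 * ∑ i ∈ T, (τ * x i) * ((U i : ℝ) - τ * x i) + D := by
      rw [hS2, hX, hD, Finset.mul_sum, ← Finset.sum_add_distrib, ← Finset.sum_add_distrib]
      exact Finset.sum_congr rfl fun i _ => by ring
    have h1 : ∑ i ∈ T, (τ * x i) * ((U i : ℝ) - τ * x i) ≤ √X * √D := by
      have h2 := Real.le_sqrt_of_sq_le hcs
      rw [Real.sqrt_mul hX0] at h2
      exact h2
    have h2 : S2 ≤ (√X + √D) ^ 2 := by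
      have e1 : (√X + √D) ^ 2 = √X ^ 2 + 2 * (√X * √D) + √D ^ 2 := by ring
      rw [e1, Real.sq_sqrt hX0, Real.sq_sqrt hD0, hexp]
      linarith
    have h3 : √S2 ≤ √X + √D := by
      rw [Real.sqrt_le_left (by positivity)]
      exact h2
    have h4 : √X ≤ E - R := by
      rw [Real.sqrt_le_left (by linarith)]
      exact hX1
    have h5 : √D ≤ B := by
      refine le_trans (Real.sqrt_le_sqrt ?_) hsB
      rw [hD]
      exact hdist
    linarith
  have hmink0 : 0 ≤ E - R + B := (Real.sqrt_nonneg _).trans hmink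
  have hS2u : S2 ≤ (E - R + B) ^ 2 := by
    have := pow_le_pow_left₀ (Real.sqrt_nonneg S2) hmink 2
    rw [Real.sq_sqrt hS20] at this
    exact this
  have hBR : B + 100 * s ≤ R := by linarith
  have hS2E : √S2 ≤ E := by linarith
  have hS1u : S1 ≤ s * E := by
    have h1 : S1 ^ 2 ≤ (T.card : ℝ) * S2 := by
      rw [hS1, hS2]
      exact sq_sum_le_card_mul_sum_sq
    have h2 : (T.card : ℝ) * S2 ≤ κ * S2 :=
      mul_le_mul_of_nonneg_right (by exact_mod_cast hTκ) hS20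
    have h3 : S1 ^ 2 ≤ (s * √S2) ^ 2 := by
      rw [mul_pow, hss, Real.sq_sqrt hS20]
      linarith
    have h4 : S1 ≤ s * √S2 := by
      have := abs_le_of_sq_le_sq' h3 (mul_nonneg hs0 (Real.sqrt_nonneg _))
      exact this.2
    exact h4.trans (mul_le_mul_of_nonneg_left hS2E hs0)
  -- the volume
  have hvol : S2 + E * (R - B) ≤ E ^ 2 := by
    have h1 : (E - R + B) ^ 2 ≤ E * (E - R + B) := by
      rw [sq]
      exact mul_le_mul_of_nonneg_right (by linarith) hmink0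
    linarith
  have hER : ∀ y : ℝ, y + B ≤ R → y * E ≤ E * (R - B) := by
    intro y hy
    rw [mul_comm]
    exact mul_le_mul_of_nonneg_left (by linarith) hE0
  -- natural number forms
  have hv1 : ((∑ i, v i : ℕ) : ℝ) = S1 := by
    push_cast
    rw [hS1]
    exact hvT (fun a _ => (a : ℝ)) (fun _ => by simp) (fun _ => 0)
  have hv2 : ((∑ i, v i ^ 2 : ℕ) : ℝ) = S2 := by
    push_cast
    rw [hS2]
    exact hvT (fun a _ => (a : ℝ) ^ 2) (fun _ => by simp) (fun _ => 0)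
  have hvz : ∀ z : Fin (r + 4) → ℕ, ((∑ i, v i * z i : ℕ) : ℝ) = ∑ i ∈ T, (U i : ℝ) * z i := by
    intro z
    push_cast
    exact hvT (fun a y => (a : ℝ) * y) (fun _ => by simp) (fun i => (z i : ℝ))
  -- positivity
  have hposv : Posv (8796093022208 * (b + 1) ^ 11) E v := by
    have key : ∀ (e : ℕ) (z : Fin (r + 4) → ℕ), 1 ≤ crk (TF e) z →
        ∑ i, v i * z i + 8796093022208 * (b + 1) ^ 11 * e ≤ E * e := by
      intro e z hz
      have h1 := (hcurve e z hz).1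
      rw [← hvz z] at h1
      have he : (0 : ℝ) ≤ e := Nat.cast_nonneg e
      have h2 : (E - R + B * s) * e ≤ (E - 8796093022208 * (B + 1) ^ 11) * e :=
        mul_le_mul_of_nonneg_right (by linarith) he
      have h3 : ((∑ i, v i * z i : ℕ) : ℝ) + 8796093022208 * ((b : ℝ) + 1) ^ 11 * e ≤ E * e := by
        rw [← hB]
        linarith
      exact_mod_cast h3
    refine ⟨fun e z hz => ?_, fun e z hz => ?_⟩
    · have := key e z hz
      omega
    · have he : 1 ≤ e := by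
        by_contra hcon
        have h0 : e = 0 := by omega
        subst h0
        have h1 := Pool.Agent.K7.H33.BP.crk_le_card (TF 0) z
        rw [card_TF] at h1
        norm_num at h1
        omega
      have h1 := key e z (by omega)
      have h2 : 8796093022208 * (b + 1) ^ 11 * 1 ≤ 8796093022208 * (b + 1) ^ 11 * e :=
        Nat.mul_le_mul_left _ he
      omega
  have hvw : ∀ i, v i = 0 ∨ w i = 0 := by
    intro i
    rw [hv, hw]
    simp only
    split_ifs <;> simp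
  have hwb : ∀ i, w i ≤ b := by
    intro i
    rw [hw]
    simp only
    split_ifs with h
    · exact Nat.zero_le _
    · exact hUb i h
  have hK : 16384 * (b + 1) ^ 3 * ∑ i, v i + ∑ i, v i ^ 2 ≤
      16384 * (b + 1) ^ 3 * (3 * E) + E ^ 2 := by
    have h1 : 16384 * (B + 1) ^ 3 * S1 ≤ 16384 * (B + 1) ^ 3 * (s * E) :=
      mul_le_mul_of_nonneg_left hS1u (by positivity)
    have h2 := hER (16384 * ((B + 1) ^ 3 * s)) (by linarith)
    have h3 : 16384 * (B + 1) ^ 3 * S1 + S2 ≤ 16384 * (B + 1) ^ 3 * (3 * E) + (E : ℝ) ^ 2 := by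
      have h4 : 0 ≤ 16384 * (B + 1) ^ 3 * (3 * (E : ℝ)) := by positivity
      have e1 : 16384 * (B + 1) ^ 3 * (s * E) = 16384 * ((B + 1) ^ 3 * s) * E := by ring
      rw [e1] at h1
      linarith
    rw [← hv1, ← hv2, hB] at h3
    exact_mod_cast h3
  have key := small_crk (d := E) (T := 8796093022208 * (b + 1) ^ 11) hvw hwb le_rfl hposv hK
  have e1 : (fun i => v i + w i) = U := by
    funext i
    rw [hv, hw]
    simp only
    split_ifs <;> simp
  rw [e1] at key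
  -- vanishing for the core
  have hupv : ∀ i, up v i ≤ v i + 1 := by
    intro i
    unfold up
    split_ifs <;> omega
  have hcore := rv_nef hP (d := E) (w := v) (by
    intro G e z hG hGe hz
    have hcr : 1 ≤ crk (TF e) z := by
      refine Pool.Agent.H879.Pos.crk_of_mem hP (G := G) hG.ne_zero ?_
      rw [← vs_eq_forms, mem_VS]
      exact ⟨hGe, fun i => (hz i).1⟩
    obtain ⟨h1, h2⟩ := hcurve e z hcr
    have he : (0 : ℝ) ≤ e := Nat.cast_nonneg e
    have h3 : ∑ i, up v i * z i ≤ ∑ i, v i * z i + ∑ i, (if i ∈ T then z i else 0) := by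
      rw [← Finset.sum_add_distrib]
      refine Finset.sum_le_sum fun i _ => ?_
      by_cases hi : i ∈ T
      · rw [if_pos hi]
        have := Nat.mul_le_mul_right (z i) (hupv i)
        rw [add_mul, one_mul] at this
        exact this
      · rw [if_neg hi]
        have h0 : v i = 0 := by rw [hv]; simp only; rw [if_neg hi]
        unfold up
        rw [if_pos h0]
        simp
    have h4 : ((∑ i, (if i ∈ T then z i else 0) : ℕ) : ℝ) = ∑ i ∈ T, (z i : ℝ) := by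
      rw [← Finset.sum_filter]
      push_cast
      exact Finset.sum_congr (by ext i; simp) fun _ _ => rfl
    have h5 : ((∑ i, up v i * z i : ℕ) : ℝ) ≤
        ((∑ i, v i * z i + ∑ i, (if i ∈ T then z i else 0) : ℕ) : ℝ) := by exact_mod_cast h3
    rw [Nat.cast_add, hvz z, h4] at h5
    have h6 : (E - R + B * s + s) * e ≤ ((E : ℝ) + 3) * e :=
      mul_le_mul_of_nonneg_right (by linarith) he
    have h7 : ((∑ i, up v i * z i : ℕ) : ℝ) ≤ (((E + 3) * e : ℕ) : ℝ) := by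
      push_cast at h5 ⊢
      linarith
    exact_mod_cast h7) (by
      have h1 := sum_up_sq v
      have h2 := hER (3 * s) (by linarith)
      have h3 : ((∑ i, v i ^ 2 + 3 * ∑ i, v i : ℕ) : ℝ) < (((E + 3) ^ 2 : ℕ) : ℝ) := by
        rw [Nat.cast_add, Nat.cast_mul, hv1, hv2]
        push_cast
        have h4 : 3 * S1 ≤ 3 * s * E := by linarith
        have e2 : ((E : ℝ) + 3) ^ 2 = (E : ℝ) ^ 2 + 6 * E + 9 := by ring
        rw [e2]
        linarith
      have h4 : ∑ i, v i ^ 2 + 3 * ∑ i, v i < (E + 3) ^ 2 := by exact_mod_cast h3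
      omega) (by
      have h1 := sum_up_sq v
      have h1' := sum_up v
      have h2 := hER (5 * s) (by linarith)
      have h3 : ((∑ i, v i ^ 2 + 5 * ∑ i, v i : ℕ) : ℝ) < (((E + 4) * (E + 5) : ℕ) : ℝ) := by
        rw [Nat.cast_add, Nat.cast_mul, hv1, hv2]
        push_cast
        have h4 : 5 * S1 ≤ 5 * s * E := by linarith
        have e2 : ((E : ℝ) + 4) * (E + 5) = (E : ℝ) ^ 2 + 9 * E + 20 := by ring
        rw [e2]
        linarith
      have h4 : ∑ i, v i ^ 2 + 5 * ∑ i, v i < (E + 4) * (E + 5) := by exact_mod_cast h3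
      omega)
  have hsplit : ∑ i, (U i + 1).choose 2 = ∑ i, (v i + 1).choose 2 + ∑ i, (w i + 1).choose 2 := by
    rw [← Finset.sum_add_distrib]
    refine Finset.sum_congr rfl fun i _ => ?_
    rw [hv, hw]
    simp only
    split_ifs <;> simp
  omega

end Pool.Agent.H879.Nef
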