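import Pool.Agent.H879.Nef.Adj
import Pool.Agent.H879.Pos.Smooth

/-! Smooth general members over an ample core. -/

set_option autoImplicit false

namespace Pool.Agent.H879.Nef

open MvPolynomial Pool.Agent.W609 Pool.Agent.W609.CR Pool.Agent.TH167.SH Pool.Agent.TH167.TT
open Pool.Agent.H248R5 Pool.Agent.H248R6
open Pool.Agent.H879.RV
open Pool.Agent.Y205.MD
open Pool.Agent.TH387.SH (TF coe_TF card_TF)
open Pool.Agent.H879.Pos (finrank_ind large small nagata_sub le_deg upd_eq)

/-- the values needed for smoothness -/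
def Good {s : ℕ} (v : Fin s → ℕ) (d : ℕ) : Prop :=
  ∃ e, d = e + 1 ∧
    (∀ k, crk (TF (e + 1)) (Function.update v k (v k + 1)) =
      (e + 1 + 2).choose 2 - ∑ i, (Function.update v k (v k + 1) i + 1).choose 2) ∧
    crk (TF e) (fun i => v i - 1) = (e + 2).choose 2 - ∑ i, (v i - 1 + 1).choose 2 ∧
    ∀ k, ∑ i, (v i + 1).choose 2 + v k < (e + 1 + 2).choose 2

theorem smooth_good {s : ℕ} (hs : 4 ≤ s) {v : Fin s → ℕ} {P : Fin s → Fin 2 → ℂ}
    (hP : AlgebraicIndependent ℚ (fun ij : Fin s × Fin 2 => P ij.1 ij.2)) {d : ℕ} (hd : Good v d)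
    {w : Fin s → ℕ} (hw : ∀ i, w i ≤ v i) :
    Module.finrank ℂ ↥(forms w P d) + ∑ i, (w i + 1).choose 2 = (d + 2).choose 2 ∧
      GeneralMember (forms w P d) (SmoothMember w P) := by
  obtain ⟨F, hF, h⟩ := Pool.Agent.Q78.SG.smooth_fam (K := ℂ) v (by omega)
    (fun d => Good v d)
    (fun e he L _ _ P hP => by
      obtain ⟨e', he', h1, h2, h3⟩ := he
      obtain rfl : e' = e := by omega
      refine ⟨fun k => ?_, ?_⟩
      · show Module.finrank L ↥(forms (Function.update v k (v k + 1)) P (e' + 1)) = _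
        rw [finrank_ind _ _ hP]
        exact h1 k
      · show Module.finrank L ↥(forms (fun i => v i - 1) P e') = _
        rw [finrank_ind _ _ hP]
        exact h2)
    (fun e he k => by
      obtain ⟨e', he', h1, h2, h3⟩ := he
      obtain rfl : e' = e := by omega
      have := h3 k
      have h4 : e' + 1 + 2 = e' + 3 := rfl
      rw [h4] at this
      omega)
  have hd' := hd
  obtain ⟨e, rfl, -⟩ := hd'
  refine h P ?_ w hw e (Or.inl hd)
  intro h0
  exact hF ((algebraicIndependent_iff.1 hP) F h0)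

/-- the multiplicities of the adjoint class -/
def av {s : ℕ} (v : Fin s → ℕ) : Fin s → ℕ := fun i => if 2 ≤ v i then v i + 1 else 0

theorem up_upd {s : ℕ} (v : Fin s → ℕ) (k i : Fin s) :
    up (large (Function.update v k (v k + 1)) 1) i ^ 2 ≤
      av v i ^ 2 + (if i = k then 2 * v i + 9 else 0) ∧
    up (large (Function.update v k (v k + 1)) 1) i ^ 2 +
      up (large (Function.update v k (v k + 1)) 1) i ≤
      av v i * (av v i + 1) + (if i = k then 2 * v i + 12 else 0) := by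
  unfold up Pool.Agent.H879.Pos.large av
  rw [upd_eq]
  by_cases hik : i = k
  · rw [if_pos hik, if_pos hik, if_pos hik]
    by_cases h2 : 2 ≤ v i
    · rw [if_pos h2, if_pos (show 1 < v i + 1 by omega), if_neg (show ¬ v i + 1 = 0 by omega)]
      constructor <;> nlinarith
    · rw [if_neg h2]
      by_cases h1 : v i = 1
      · rw [h1]
        norm_num
      · have h0 : v i = 0 := by omega
        rw [h0]
        norm_num
  · rw [if_neg hik, if_neg hik, if_neg hik]
    by_cases h2 : 2 ≤ v i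
    · rw [if_pos h2, if_pos (show 1 < v i + 0 by omega), if_neg (show ¬ v i + 0 = 0 by omega)]
      constructor
      · rw [add_zero, add_zero]
      · rw [add_zero, add_zero]
        nlinarith
    · rw [if_neg h2, if_neg (show ¬ 1 < v i + 0 by omega), if_pos rfl]
      norm_num

theorem up_sub1 {s : ℕ} (v : Fin s → ℕ) (i : Fin s) :
    up (large (fun i => v i - 1) 1) i ≤ if 2 ≤ v i then v i else 0 := by
  unfold up Pool.Agent.H879.Pos.large
  beta_reduce
  by_cases h3 : 1 < v i - 1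
  · rw [if_pos h3, if_neg (show ¬ v i - 1 = 0 by omega), if_pos (show 2 ≤ v i by omega)]
    omega
  · rw [if_neg h3, if_pos rfl]
    exact Nat.zero_le _

/-- numbers -/
theorem small_num {s m ρ δ : ℝ} (hs : 3 ≤ s) (hm : 0 ≤ m) (hδ0 : 0 < δ) (hδ1 : δ ≤ 1)
    (h : 10 ^ 25 * s * (m + 2) ≤ ρ * δ ^ 10) :
    10 ^ 25 * (m + 2) ≤ ρ ∧ 10 ^ 24 * s * (m + 2) ≤ (ρ - 1 - s) * δ ^ 10 := by
  have h10 : δ ^ 10 ≤ 1 := pow_le_one₀ hδ0.le hδ1
  have h100 : 0 < δ ^ 10 := by positivity
  have hL : 0 < 10 ^ 25 * s * (m + 2) := by positivity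
  have hρ : 0 < ρ := by
    by_contra hcon
    push Not at hcon
    have := mul_nonpos_of_nonpos_of_nonneg hcon h100.le
    linarith
  have h1 : ρ * δ ^ 10 ≤ ρ := by
    have := mul_le_mul_of_nonneg_left h10 hρ.le
    linarith
  have h2 : (m + 2) * 1 ≤ (m + 2) * s := mul_le_mul_of_nonneg_left (by linarith) (by linarith)
  constructor
  · have h3 : 0 ≤ (m + 2) * s - (m + 2) := by linarith
    nlinarith
  · have h3 : (1 + s) * δ ^ 10 ≤ (1 + s) * 1 := mul_le_mul_of_nonneg_left h10 (by linarith)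
    have e1 : (ρ - 1 - s) * δ ^ 10 = ρ * δ ^ 10 - (1 + s) * δ ^ 10 := by ring
    rw [e1]
    have h4 : s * 2 ≤ s * (m + 2) := mul_le_mul_of_nonneg_left (by linarith) (by linarith)
    nlinarith

/-- **ample cores** -/
theorem good_amp {r d : ℕ} {P : Fin (r + 4) → Fin 2 → ℂ}
    (hP : AlgebraicIndependent ℚ (fun ij : Fin (r + 4) × Fin 2 => P ij.1 ij.2))
    {v : Fin (r + 4) → ℕ} {ρ m δ : ℝ} {T : Finset (Fin (r + 4))} {κ : ℕ}
    (hκ : 9 ≤ κ) (hTκ : T.card ≤ κ)
    (hpos : ∀ (F : MvPolynomial (Fin 3) ℂ) (e : ℕ) (c : Fin (r + 4) → ℕ), F ≠ 0 →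
      F.IsHomogeneous e → (∀ i, Van (aff (P i)) (c i) F) →
      ∑ i ∈ T, (v i : ℝ) * (c i : ℝ) ≤ (d - ρ) * e)
    (hm0 : 0 ≤ m) (hm : ∀ i, i ∉ T → (v i : ℝ) ≤ m) (hδ0 : 0 < δ) (hδ1 : δ ≤ 1)
    (hsmall : 10 ^ 25 * √(κ : ℝ) * (m + 2) ≤ ρ * δ ^ 10)
    (hχ : ∀ k, ∑ i, (v i + 1).choose 2 + v k < (d + 2).choose 2)
    (hq : ∀ k, δ * (m + 2) ^ 2 + 2 * (v k : ℝ) + 9 ≤ ((d : ℝ) + 3) ^ 2 - ∑ i, (av v i : ℝ) ^ 2)
    (heff : ∀ k, ∑ i, av v i * (av v i + 1) + 2 * v k + 12 < (d + 4) * (d + 5)) : Good v d := by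
  classical
  have hs3 : 3 ≤ √(κ : ℝ) := by
    refine Real.le_sqrt_of_sq_le ?_
    have : (9 : ℝ) ≤ κ := by exact_mod_cast hκ
    linarith
  obtain ⟨hρ1, hsm⟩ := small_num hs3 hm0 hδ0 hδ1 hsmall
  have hρm : m + 2 ≤ ρ / 2 := by linarith
  have hdρ : ρ ≤ d := by
    obtain ⟨F, h1, h2, h3⟩ := exists_van P (e := 1) (v := fun _ => 0) (by simp)
    have := hpos F 1 (fun _ => 0) h1 h2 h3
    simpa using this
  have hvd : ∀ i, (v i : ℝ) ≤ d - ρ / 2 := by
    intro i
    by_cases hi : i ∈ T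
    · obtain ⟨F, h1, h2, h3⟩ := exists_van P (e := 1) (v := fun j => if j = i then 1 else 0) (by
        simp)
      have h4 := hpos F 1 _ h1 h2 h3
      have h5 : ∑ j ∈ T, (v j : ℝ) * ((if j = i then 1 else 0 : ℕ) : ℝ) = v i := by
        rw [Finset.sum_eq_single i]
        · rw [if_pos rfl]
          push_cast
          ring
        · intro j _ hj
          rw [if_neg hj]
          push_cast
          ring
        · intro h
          exact absurd hi h
      rw [h5] at h4
      push_cast at h4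
      linarith
    · have := hm i hi
      linarith
  obtain ⟨e, rfl⟩ : ∃ e, d = e + 1 := by
    refine ⟨d - 1, ?_⟩
    have h1 : (0 : ℝ) < d := by linarith
    have h2 : 0 < d := by exact_mod_cast h1
    omega
  refine ⟨e, rfl, fun k => ?_, ?_, hχ⟩
  · refine crk_amp hP (w := Function.update v k (v k + 1)) (ρ := ρ - 1) (m := m + 1) (δ := δ)
      (T := T) hκ hTκ ?_ (by linarith) (fun i hi => ?_) hδ0 hδ1 ?_ ?_ ?_
    · intro F e' c hF0 hF hc
      have h1 := hpos F e' c hF0 hF hc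
      have h2 : (c k : ℝ) ≤ e' := by exact_mod_cast le_deg (one_le_crk hP hF0 hF hc) k
      have h3 : ∑ i ∈ T, ((Function.update v k (v k + 1) i : ℕ) : ℝ) * (c i : ℝ) ≤
          ∑ i ∈ T, (v i : ℝ) * (c i : ℝ) + c k := by
        have h4 : ∑ i ∈ T, ((Function.update v k (v k + 1) i : ℕ) : ℝ) * (c i : ℝ) =
            ∑ i ∈ T, ((v i : ℝ) * (c i : ℝ) + if i = k then (c i : ℝ) else 0) := by
          refine Finset.sum_congr rfl fun i _ => ?_
          rw [upd_eq]
          by_cases hik : i = k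
          · rw [if_pos hik, if_pos hik]
            push_cast
            ring
          · rw [if_neg hik, if_neg hik]
            push_cast
            ring
        rw [h4, Finset.sum_add_distrib, Finset.sum_ite_eq']
        have h5 : (0 : ℝ) ≤ c k := Nat.cast_nonneg _
        split_ifs <;> linarith
      have e1 : (((e + 1 : ℕ) : ℝ) - (ρ - 1)) * e' = (((e + 1 : ℕ) : ℝ) - ρ) * e' + e' := by ring
      rw [e1]
      linarith
    · have := hm i hi
      rw [upd_eq]
      push_cast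
      split_ifs <;> linarith
    · have e1 : m + 1 + 1 = m + 2 := by ring
      rw [e1]
      exact hsm
    · have h1 : ∑ i, up (large (Function.update v k (v k + 1)) 1) i ^ 2 ≤
          ∑ i, av v i ^ 2 + (2 * v k + 9) := by
        refine (Finset.sum_le_sum fun i _ => (up_upd v k i).1).trans ?_
        rw [Finset.sum_add_distrib, Finset.sum_ite_eq', if_pos (Finset.mem_univ k)]
      have h2 : ((∑ i, up (large (Function.update v k (v k + 1)) 1) i ^ 2 : ℕ) : ℝ) ≤
          ((∑ i, av v i ^ 2 + (2 * v k + 9) : ℕ) : ℝ) := by exact_mod_cast h1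
      push_cast at h2
      have h3 := hq k
      have e1 : m + 1 + 1 = m + 2 := by ring
      rw [e1]
      linarith
    · have h1 : ∑ i, (up (large (Function.update v k (v k + 1)) 1) i ^ 2 +
          up (large (Function.update v k (v k + 1)) 1) i) ≤
          ∑ i, av v i * (av v i + 1) + (2 * v k + 12) := by
        refine (Finset.sum_le_sum fun i _ => (up_upd v k i).2).trans ?_
        rw [Finset.sum_add_distrib, Finset.sum_ite_eq', if_pos (Finset.mem_univ k)]
      rw [Finset.sum_add_distrib] at h1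
      have h3 := heff k
      omega
  · -- one less
    obtain ⟨B2, hB2⟩ : ∃ B2, B2 = ∑ i, (if 2 ≤ v i then v i else 0) ^ 2 := ⟨_, rfl⟩
    obtain ⟨B1, hB1⟩ : ∃ B1, B1 = ∑ i, (if 2 ≤ v i then v i else 0) := ⟨_, rfl⟩
    obtain ⟨N, hN⟩ : ∃ N, N = ∑ i, (if 2 ≤ v i then 1 else 0) := ⟨_, rfl⟩
    have ha : ∑ i, av v i ^ 2 = B2 + 2 * B1 + N := by
      rw [hB2, hB1, hN, Finset.mul_sum, ← Finset.sum_add_distrib, ← Finset.sum_add_distrib]
      refine Finset.sum_congr rfl fun i _ => ?_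
      unfold av
      split_ifs <;> ring
    have haR : ∑ i, (av v i : ℝ) ^ 2 = B2 + 2 * B1 + N := by
      have h1 : ((∑ i, av v i ^ 2 : ℕ) : ℝ) = ((B2 + 2 * B1 + N : ℕ) : ℝ) := by rw [ha]
      push_cast at h1
      exact h1
    have hu2 : ∑ i, up (large (fun i => v i - 1) 1) i ^ 2 ≤ B2 := by
      rw [hB2]
      exact Finset.sum_le_sum fun i _ => Nat.pow_le_pow_left (up_sub1 v i) 2
    have hu1 : ∑ i, up (large (fun i => v i - 1) 1) i ≤ B1 := by
      rw [hB1]
      exact Finset.sum_le_sum fun i _ => up_sub1 v i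
    have hq0 := hq 0
    rw [haR] at hq0
    have hv0 : (0 : ℝ) ≤ v 0 := Nat.cast_nonneg _
    have hδm : 0 ≤ δ * (m + 2) ^ 2 := by positivity
    have hδm1 : δ * (m + 1) ^ 2 ≤ δ * (m + 2) ^ 2 :=
      mul_le_mul_of_nonneg_left (pow_le_pow_left₀ (by linarith) (by linarith) 2) hδ0.le
    refine crk_amp hP (w := fun i => v i - 1) (ρ := ρ - 1) (m := m) (δ := δ)
      (T := T) hκ hTκ ?_ hm0 (fun i hi => ?_) hδ0 hδ1 ?_ ?_ ?_
    · intro F e' c hF0 hF hc
      have h1 := hpos F e' c hF0 hF hc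
      have h2 : ∑ i ∈ T, ((v i - 1 : ℕ) : ℝ) * (c i : ℝ) ≤ ∑ i ∈ T, (v i : ℝ) * (c i : ℝ) := by
        refine Finset.sum_le_sum fun i _ => mul_le_mul_of_nonneg_right ?_ (Nat.cast_nonneg _)
        exact_mod_cast Nat.sub_le _ _
      have e1 : ((e : ℝ) - (ρ - 1)) * e' = (((e + 1 : ℕ) : ℝ) - ρ) * e' := by
        push_cast
        ring
      rw [e1]
      exact h2.trans h1
    · have h1 : ((v i - 1 : ℕ) : ℝ) ≤ v i := by exact_mod_cast Nat.sub_le _ _
      exact h1.trans (hm i hi)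
    · refine le_trans ?_ hsm
      exact mul_le_mul_of_nonneg_left (by linarith) (by positivity)
    · have hu2R : ((∑ i, up (large (fun i => v i - 1) 1) i ^ 2 : ℕ) : ℝ) ≤ B2 := by
        exact_mod_cast hu2
      push_cast at hu2R hq0
      refine le_trans ?_ (sub_le_sub_left hu2R _)
      by_cases hc : 2 * (e + 1) + 5 ≤ 2 * B1 + N
      · have h1 : (2 * ((e : ℝ) + 1) + 5) ≤ 2 * B1 + N := by exact_mod_cast hc
        nlinarith
      · push Not at hc
        have h1 : B1 ≤ e + 3 := by omega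
        have h1R : (B1 : ℝ) ≤ (e : ℝ) + 3 := by exact_mod_cast h1
        have h2 : (B2 : ℝ) ≤ ((e : ℝ) + 1 - ρ / 2) * B1 := by
          have h3 : ((∑ i, (if 2 ≤ v i then v i else 0) ^ 2 : ℕ) : ℝ) ≤
              ((e : ℝ) + 1 - ρ / 2) * ((∑ i, (if 2 ≤ v i then v i else 0) : ℕ) : ℝ) := by
            push_cast
            rw [Finset.mul_sum]
            refine Finset.sum_le_sum fun i _ => ?_
            have h4 := hvd i
            push_cast at h4
            split_ifs
            · rw [sq]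
              exact mul_le_mul_of_nonneg_right h4 (Nat.cast_nonneg _)
            · norm_num
          rw [← hB2, ← hB1] at h3
          exact h3
        have h4 : 0 ≤ (e : ℝ) + 1 - ρ / 2 := by
          push_cast at hdρ
          linarith
        have h5 : ((e : ℝ) + 1 - ρ / 2) * B1 ≤ ((e : ℝ) + 1 - ρ / 2) * ((e : ℝ) + 3) :=
          mul_le_mul_of_nonneg_left h1R h4
        have h6 : (m + 1) ^ 2 ≤ ρ / 2 * (ρ / 2) := by
          rw [sq]
          exact mul_le_mul (by linarith) (by linarith) (by linarith) (by linarith)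
        have h7 : δ * (m + 1) ^ 2 ≤ 1 * (m + 1) ^ 2 :=
          mul_le_mul_of_nonneg_right hδ1 (sq_nonneg _)
        have h8 : ρ / 2 * (ρ / 2) ≤ (2 + ρ / 2) * ((e : ℝ) + 3) := by
          push_cast at hdρ
          exact mul_le_mul (by linarith) (by linarith) (by linarith) (by linarith)
        nlinarith
    · have h1 : (B2 : ℝ) + 2 * B1 + N + 9 ≤ ((e : ℝ) + 4) ^ 2 := by
        push_cast at hq0
        nlinarith
      have h2 : B2 + 2 * B1 + N + 9 ≤ (e + 4) ^ 2 := by exact_mod_cast h1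
      have e1 : (e + 4) * (e + 5) = (e + 4) ^ 2 + (e + 4) := by ring
      rw [e1]
      omega

end Pool.Agent.H879.Nef
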