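import Pool.Agent.H879.RV.Margin
import Pool.Agent.H879.Nef.Num

/-! Nef classes have nonnegative self-intersection; vanishing for nef cores. -/

set_option autoImplicit false

namespace Pool.Agent.H879.Nef

open MvPolynomial Pool.Agent.W609 Pool.Agent.W609.CR Pool.Agent.TH167.SH Pool.Agent.TH167.TT
open Pool.Agent.H879.RV
open Pool.Agent.Y205.MD
open Pool.Agent.TH387.SH (TF coe_TF card_TF)
open Pool.Agent.H879.Pos (Posv finrank_ind small_crk crk_lower)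

/-- a form from the number of the conditions -/
theorem exists_van {n : ℕ} (P : Fin n → Fin 2 → ℂ) {e : ℕ} {v : Fin n → ℕ}
    (h : ∑ i, v i ^ 2 + ∑ i, v i < (e + 1) * (e + 2)) :
    ∃ F : MvPolynomial (Fin 3) ℂ, F ≠ 0 ∧ F.IsHomogeneous e ∧ ∀ i, Van (aff (P i)) (v i) F := by
  have hcount : ∑ i, (v i + 1).choose 2 < (e + 2).choose 2 := by
    have e1 : 2 * ∑ i, (v i + 1).choose 2 = ∑ i, v i ^ 2 + ∑ i, v i := by
      rw [Finset.mul_sum, ← Finset.sum_add_distrib]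
      refine Finset.sum_congr rfl fun i _ => ?_
      rw [Pool.Agent.H879.Pos.cond_two]
      ring
    have e2 : 2 * (e + 2).choose 2 = (e + 1) * (e + 2) :=
      Pool.Agent.H879.Pos.cond_two (e + 1)
    omega
  have h5 := Pool.Agent.W609.CR.le_dim v P e
  have h6 : 0 < Module.finrank ℂ ↥(Pool.Agent.H248R5.forms v P e) := by omega
  have hfin := Pool.Agent.H248R6.forms_finite v P e
  obtain ⟨⟨f, hf⟩, hf0⟩ := Module.finrank_pos_iff_exists_ne_zero.1 h6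
  have hf0' : f ≠ 0 := fun h => hf0 (Subtype.ext h)
  rw [← vs_eq_forms] at hf
  have hf' := hf
  unfold VS at hf'
  rw [Submodule.mem_inf, mem_homogeneousSubmodule, Submodule.restrictScalars_mem,
    Ideal.mem_iInf] at hf'
  exact ⟨f, hf0', hf'.1, hf'.2⟩

/-- nef classes have nonnegative degree -/
theorem deg_nonneg {n : ℕ} {P : Fin n → Fin 2 → ℂ} {x : Fin n → ℝ} {c : ℝ}
    (h : ∀ (F : MvPolynomial (Fin 3) ℂ) (e : ℕ) (v : Fin n → ℕ), F ≠ 0 → F.IsHomogeneous e →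
      (∀ i, Van (aff (P i)) (v i) F) → ∑ i, x i * (v i : ℝ) ≤ c * e) : 0 ≤ c := by
  obtain ⟨F, h1, h2, h3⟩ := exists_van P (e := 1) (v := fun _ => 0) (by simp)
  have := h F 1 (fun _ => 0) h1 h2 h3
  simpa using this

/-- nef classes have nonnegative self-intersection -/
theorem sq_of_nef {n : ℕ} {P : Fin n → Fin 2 → ℂ} {x : Fin n → ℝ} {c : ℝ} (hx0 : ∀ i, 0 ≤ x i)
    (h : ∀ (F : MvPolynomial (Fin 3) ℂ) (e : ℕ) (v : Fin n → ℕ), F ≠ 0 → F.IsHomogeneous e →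
      (∀ i, Van (aff (P i)) (v i) F) → ∑ i, x i * (v i : ℝ) ≤ c * e) :
    ∑ i, x i ^ 2 ≤ c ^ 2 := by
  classical
  have hc := deg_nonneg h
  by_contra hcon
  push Not at hcon
  obtain ⟨X, hX⟩ : ∃ X, X = ∑ i, x i ^ 2 := ⟨_, rfl⟩
  obtain ⟨A, hA⟩ : ∃ A, A = ∑ i, x i := ⟨_, rfl⟩
  have hA0 : 0 ≤ A := by rw [hA]; exact Finset.sum_nonneg fun i _ => hx0 i
  rw [← hX] at hcon
  have hX0 : 0 < X := lt_of_le_of_lt (sq_nonneg c) hcon
  obtain ⟨s, hs⟩ : ∃ s, s = √X := ⟨_, rfl⟩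
  have hs0 : 0 < s := by rw [hs]; exact Real.sqrt_pos.2 hX0
  have hs2 : s ^ 2 = X := by rw [hs]; exact Real.sq_sqrt hX0.le
  have hcs : c < s := by
    by_contra hle
    push Not at hle
    have := pow_le_pow_left₀ hs0.le hle 2
    linarith
  obtain ⟨K0, hK0⟩ := exists_nat_ge (A / s)
  have hK0' : A ≤ K0 * s := by
    rw [div_le_iff₀ hs0] at hK0
    exact hK0
  obtain ⟨N, hN⟩ := exists_nat_ge ((A + c * (1 + K0)) / (s * (s - c)) + 1)
  have hgap : 0 < s * (s - c) := mul_pos hs0 (by linarith)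
  have hN' : A + c * (1 + K0) < N * (s * (s - c)) := by
    have h1 : (A + c * (1 + K0)) / (s * (s - c)) < N := by linarith
    rw [div_lt_iff₀ hgap] at h1
    exact h1
  obtain ⟨v, hv⟩ : ∃ v : Fin n → ℕ, v = fun i => ⌊(N : ℝ) * x i⌋₊ := ⟨_, rfl⟩
  obtain ⟨e, he⟩ : ∃ e : ℕ, e = ⌈(N : ℝ) * s⌉₊ + K0 := ⟨_, rfl⟩
  have hN0 : (0 : ℝ) ≤ N := Nat.cast_nonneg N
  have hNx : ∀ i, 0 ≤ (N : ℝ) * x i := fun i => mul_nonneg hN0 (hx0 i)
  have hv1 : ∀ i, (v i : ℝ) ≤ N * x i := fun i => by rw [hv]; exact Nat.floor_le (hNx i)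
  have hv2 : ∀ i, (N : ℝ) * x i - 1 ≤ v i := fun i => by
    rw [hv]
    have := Nat.lt_floor_add_one ((N : ℝ) * x i)
    linarith
  have he1 : (N : ℝ) * s + K0 ≤ e := by
    rw [he]
    push_cast
    have := Nat.le_ceil ((N : ℝ) * s)
    linarith
  have he2 : (e : ℝ) ≤ N * s + 1 + K0 := by
    rw [he]
    push_cast
    have := Nat.ceil_lt_add_one (mul_nonneg hN0 hs0.le)
    linarith
  have hcnt : ∑ i, v i ^ 2 + ∑ i, v i < (e + 1) * (e + 2) := by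
    have h1 : ∑ i, (v i : ℝ) ^ 2 ≤ (N : ℝ) ^ 2 * X := by
      rw [hX, Finset.mul_sum]
      refine Finset.sum_le_sum fun i _ => ?_
      rw [← mul_pow]
      exact pow_le_pow_left₀ (Nat.cast_nonneg _) (hv1 i) 2
    have h2 : ∑ i, (v i : ℝ) ≤ N * A := by
      rw [hA, Finset.mul_sum]
      exact Finset.sum_le_sum fun i _ => hv1 i
    have h3 : ((N : ℝ) * s + K0) ^ 2 ≤ (e : ℝ) ^ 2 :=
      pow_le_pow_left₀ (by positivity) he1 2
    have h4 : (N : ℝ) * A ≤ N * (K0 * s) := mul_le_mul_of_nonneg_left hK0' hN0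
    have e1 : ((N : ℝ) * s + K0) ^ 2 = (N : ℝ) ^ 2 * X + 2 * (N * (K0 * s)) + (K0 : ℝ) ^ 2 := by
      rw [← hs2]
      ring
    have h5 : 0 ≤ (N : ℝ) * (K0 * s) := by positivity
    have h6 : ∑ i, (v i : ℝ) ^ 2 + ∑ i, (v i : ℝ) < ((e : ℝ) + 1) * (e + 2) := by
      have h7 : (0 : ℝ) ≤ e := Nat.cast_nonneg e
      have h8 : 0 ≤ (K0 : ℝ) ^ 2 := sq_nonneg _
      have e2 : ((e : ℝ) + 1) * (e + 2) = (e : ℝ) ^ 2 + 3 * e + 2 := by ring
      rw [e2]
      rw [e1] at h3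
      linarith
    exact_mod_cast h6
  obtain ⟨F, h1, h2, h3⟩ := exists_van P hcnt
  have h4 := h F e v h1 h2 h3
  have h5 : (N : ℝ) * X - A ≤ ∑ i, x i * (v i : ℝ) := by
    rw [hX, hA, Finset.mul_sum, ← Finset.sum_sub_distrib]
    refine Finset.sum_le_sum fun i _ => ?_
    have := mul_le_mul_of_nonneg_left (hv2 i) (hx0 i)
    linarith
  have h6 : c * e ≤ c * (N * s + 1 + K0) := mul_le_mul_of_nonneg_left he2 hc
  have e3 : (N : ℝ) * (s * (s - c)) = N * X - c * (N * s) := by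
    rw [← hs2]
    ring
  rw [e3] at hN'
  linarith

/-- vanishing for a nef and big adjoint class -/
theorem rv_nef {n : ℕ} {P : Fin n → Fin 2 → ℂ}
    (hP : AlgebraicIndependent ℚ (fun ij : Fin n × Fin 2 => P ij.1 ij.2))
    {d : ℕ} {w : Fin n → ℕ}
    (hnef : ∀ (G : MvPolynomial (Fin 3) ℂ) (e : ℕ) (c : Fin n → ℕ), Irreducible G →
      G.IsHomogeneous e → (∀ i, Ord (aff (P i)) (c i) G) → ∑ i, up w i * c i ≤ (d + 3) * e)
    (hbig : ∑ i, up w i ^ 2 < (d + 3) ^ 2)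
    (heff : ∑ i, up w i ^ 2 + ∑ i, up w i < (d + 4) * (d + 5)) :
    crk (TF d) w + ∑ i, (w i + 1).choose 2 = (d + 2).choose 2 := by
  classical
  rw [← finrank_ind w d hP]
  obtain ⟨u, hu⟩ : ∃ u, u = up w := ⟨_, rfl⟩
  rw [← hu] at hbig heff hnef
  obtain ⟨f, hf0, hf1, hf2⟩ := exists_van P (e := d + 3) (v := u) heff
  have key := rv (pts_inj hP) (D := d + 3) (by omega) (u := u) hf0 hf1 hf2 hnef hbig
  have e1 : (fun i => u i - 1) = w := by
    rw [hu]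
    exact up_sub w
  have e2 : ∀ i, u i - 1 = w i := fun i => congrFun e1 i
  rw [e1] at key
  simp only [e2] at key
  exact key

end Pool.Agent.H879.Nef
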